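import Pool.Agent.Helper86.HC.Lit

/-!
# Covered words

`CovS P Z`: for all `k₁ ≥ k₂ ≥ ..` there is an end piece with the large faces `P_i + 5 k_i` and `Z`
at every face of size `D ≥ 8` which is at least as large as all of them.
-/

namespace Pool.Agent.Helper86.HC

open Finset Pool.Agent.Helper79.HX Pool.Agent.Helper79.HG Pool.Agent.Helper79.HH

/-- the sizes `P_i + 5 k_i` -/
def up (P k : List ℕ) : List ℕ := List.zipWith (fun s t => s + 5 * t) P k

def CovS (P Z : List ℕ) : Prop :=
  ∀ k : List ℕ, k.length = P.length → k.Pairwise (· ≥ ·) → ∀ D : ℕ, 8 ≤ D →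
    (∀ x ∈ up P k ++ Z, x ≤ D) → ∃ g, 2 ≤ g ∧ g + 3 ≤ D ∧
      CoreG g ((up P k ++ Z : List ℕ) : Multiset ℕ) 0

/-- upper (relative to the first entry) and lower bound for the alternating sums of `d + k` -/
def em : List ℕ → ℤ × ℤ
  | [] => (0, 0)
  | x :: d => ((x : ℤ) - (em d).2, (x : ℤ) - (em d).1)

def okd : List ℕ → Bool
  | [] => true
  | x :: d => decide ((em d).1 ≤ (x : ℤ)) && okd d

theorem alt_zero (z : ℕ) : alt (List.replicate z 0) = 0 := by
  cases z with
  | zero => rfl
  | succ n => rw [List.replicate_succ]; exact Nat.zero_sub _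

theorem ok_zero (z : ℕ) : Ok (List.replicate z 0) := by
  induction z with
  | zero => trivial
  | succ n ih =>
    rw [List.replicate_succ]
    exact ⟨by rw [alt_zero], ih⟩

theorem em_spec : ∀ (d k : List ℕ) (z : ℕ), k.length = d.length → k.Pairwise (· ≥ ·) →
    okd d = true → Ok (List.zipWith (· + ·) d k ++ List.replicate z 0) ∧
      (em d).2 ≤ (alt (List.zipWith (· + ·) d k ++ List.replicate z 0) : ℤ) ∧
      ∀ K : ℕ, (∀ x ∈ k, x ≤ K) →
        (alt (List.zipWith (· + ·) d k ++ List.replicate z 0) : ℤ) ≤ K + (em d).1 := by
  intro d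
  induction d with
  | nil =>
    intro k z _ _ _
    rw [List.zipWith_nil_left, List.nil_append, alt_zero]
    refine ⟨ok_zero z, by simp [em], fun K _ => by simp [em]⟩
  | cons x d ih =>
    intro k z hk hs hd
    cases k with
    | nil => simp at hk
    | cons y k =>
      rw [okd, Bool.and_eq_true, decide_eq_true_eq] at hd
      rw [List.pairwise_cons] at hs
      obtain ⟨i1, i2, i3⟩ := ih k z (by simpa using hk) hs.2 hd.2
      have i4 := i3 y (fun a ha => hs.1 a ha)
      obtain ⟨a, ha⟩ : ∃ a, a = alt (List.zipWith (· + ·) d k ++ List.replicate z 0) := ⟨_, rfl⟩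
      rw [← ha] at i2 i4
      rw [List.zipWith_cons_cons, List.cons_append]
      have h1 : a ≤ x + y := by omega
      have h2 : alt ((x + y) :: (List.zipWith (· + ·) d k ++ List.replicate z 0)) =
          x + y - a := by rw [ha]; rfl
      have h3 := hd.1
      refine ⟨⟨by rw [← ha]; exact h1, i1⟩, ?_, ?_⟩
      · rw [h2, em]
        push_cast [Nat.cast_sub h1]
        linarith
      · intro K hK
        have h4 : (y : ℤ) ≤ K := by exact_mod_cast hK y (by simp)
        rw [h2, em]
        push_cast [Nat.cast_sub h1]
        linarith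

theorem zip_split : ∀ (d b k : List ℕ), k.length = d.length → d.length ≤ b.length →
    List.zipWith (fun s t => s + 5 * t) b
      (List.zipWith (· + ·) d k ++ List.replicate (b.length - d.length) 0) =
    up (up (b.take d.length) d) k ++ b.drop d.length := by
  intro d
  induction d with
  | nil =>
    intro b k hk _
    have : k = [] := List.length_eq_zero_iff.1 hk
    subst this
    rw [List.zipWith_nil_left, List.nil_append, List.length_nil, Nat.sub_zero, List.drop_zero]
    have e : ∀ w : List ℕ, List.zipWith (fun s t => s + 5 * t) w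
        (List.replicate w.length 0) = w := by
      intro w
      induction w with
      | nil => rfl
      | cons b w ih =>
        rw [List.length_cons, List.replicate_succ, List.zipWith_cons_cons, ih]
        simp
    rw [e]
    rfl
  | cons x d ih =>
    intro b k hk hb
    cases k with
    | nil => simp at hk
    | cons y k =>
      cases b with
      | nil => simp at hb
      | cons c b =>
        have h1 := ih b k (by simpa using hk) (by simpa using hb)
        rw [List.zipWith_cons_cons, List.cons_append, List.zipWith_cons_cons, List.length_cons,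
          List.length_cons, Nat.add_sub_add_right, h1, List.take_succ_cons, List.drop_succ_cons]
        show _ = (c + 5 * x + 5 * y) :: (up (up (b.take d.length) d) k ++ b.drop d.length)
        congr 1
        ring

/-- the numerical conditions -/
def ckD (b Z0 : List ℕ) (g0 : ℕ) (d P Z : List ℕ) : Bool :=
  okd d && decide (2 ≤ g0) && decide (d.length ≤ b.length) &&
    decide (up (b.take d.length) d = P) && (b.drop d.length ++ Z0).isPerm Z &&
    (match P with
      | [] => Nat.ble (g0 + 3) 8 || Z.any (fun z => Nat.ble (g0 + 3) z)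
      | p :: _ => decide ((g0 : ℤ) + 5 * (em d).1 + 3 ≤ (p : ℤ)))

/-- **Covered words from a literal end piece.** -/
theorem covG {N : ℕ} {L : List Tr} {l : List PS} {b Z0 : List ℕ} {g0 : ℕ}
    (h : ckP N L l b Z0 g0 = true) (d : List ℕ) {P Z : List ℕ}
    (hc : ckD b Z0 g0 d P Z = true) : CovS P Z := by
  simp only [ckD, Bool.and_eq_true, decide_eq_true_eq] at hc
  obtain ⟨⟨⟨⟨⟨c1, c2⟩, c3⟩, c4⟩, c5⟩, c6⟩ := hc
  intro k hk hs D hD8 hD
  have hlen : P.length = d.length := by
    rw [← c4, up, List.length_zipWith, List.length_take]
    omega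
  have hk' : k.length = d.length := by rw [hk, hlen]
  obtain ⟨i1, -, i3⟩ := em_spec d k (b.length - d.length) hk' hs c1
  have h4 := path_core h (List.zipWith (· + ·) d k ++ List.replicate (b.length - d.length) 0)
    (by rw [List.length_append, List.length_zipWith, List.length_replicate]; omega) i1
  rw [zip_split d b k hk' c3, c4, List.append_assoc] at h4
  have e : (((up P k ++ (b.drop d.length ++ Z0)) : List ℕ) : Multiset ℕ) =
      ((up P k ++ Z : List ℕ) : Multiset ℕ) :=
    Multiset.coe_eq_coe.2 ((List.isPerm_iff.1 c5).append_left _)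
  rw [e] at h4
  refine ⟨_, by omega, ?_, h4⟩
  cases P with
  | nil =>
    have hd0 : d = [] := List.length_eq_zero_iff.1 (by rw [← hlen]; rfl)
    subst hd0
    rw [List.zipWith_nil_left, List.nil_append, alt_zero, mul_zero, add_zero]
    simp only [Bool.or_eq_true] at c6
    rcases c6 with c6 | c6
    · have := Nat.le_of_ble_eq_true c6
      omega
    · obtain ⟨z, hz, c7⟩ := List.any_eq_true.1 c6
      have := Nat.le_of_ble_eq_true c7
      have := hD z (List.mem_append_right _ hz)
      omega
  | cons p P =>
    simp only [decide_eq_true_eq] at c6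
    cases k with
    | nil => simp at hk
    | cons y k =>
      have h5 : p + 5 * y ≤ D := hD _ (List.mem_append_left _ (by
        rw [up, List.zipWith_cons_cons]
        exact List.mem_cons_self))
      rw [List.pairwise_cons] at hs
      have h6 := i3 y (by
        intro x hx
        rcases List.mem_cons.1 hx with rfl | hx
        · exact le_refl _
        · exact hs.1 x hx)
      omega

end Pool.Agent.Helper86.HC
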