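import Pool.Agent.Helper86.HC.Cov

/-!
# End pieces, part 0 (found by computer)
-/

namespace Pool.Agent.Helper86.HC

open Pool.Agent.Helper79.HH

/-! 13 | 6, hub 10 -/

def e6L : List Tr :=
  [(19, 20, 22), (17, 19, 22), (17, 18, 22), (20, 21, 22), (18, 21, 22), (14, 18, 21),
   (0, 20, 21), (0, 14, 21), (2, 19, 20), (0, 2, 20), (15, 17, 19), (2, 15, 19), (14, 16, 18),
   (16, 17, 18), (15, 16, 17), (13, 14, 16), (13, 15, 16), (2, 13, 15), (0, 12, 14),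
   (12, 13, 14), (2, 12, 13), (0, 11, 12), (2, 11, 12), (2, 9, 11), (0, 10, 11), (9, 10, 11),
   (8, 9, 10), (0, 6, 10), (6, 8, 10), (7, 8, 9), (2, 7, 9), (5, 6, 8), (5, 7, 8), (3, 5, 7),
   (2, 3, 7), (0, 4, 6), (4, 5, 6), (3, 4, 5), (0, 1, 4), (1, 3, 4), (1, 2, 3), (0, 1, 2)]

theorem e6_ck : ckP 23 e6L
    [(0, 2, 11, 12, 10, 9)]
    [13] [6] 10 = true := by decide +kernel

theorem c_C_a : CovS [13] [6] := covG e6_ck [0] (by decide +kernel)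

/-! 6, 6 | 7, hub 6 -/

def e8L : List Tr :=
  [(10, 11, 13), (8, 10, 13), (8, 9, 13), (11, 12, 13), (9, 12, 13), (5, 9, 12), (6, 11, 12),
   (5, 6, 12), (4, 10, 11), (4, 6, 11), (0, 8, 10), (0, 4, 10), (5, 7, 9), (7, 8, 9),
   (0, 7, 8), (2, 5, 7), (0, 2, 7), (3, 4, 6), (3, 5, 6), (2, 3, 5), (0, 1, 4), (1, 3, 4),
   (1, 2, 3), (0, 1, 2)]

theorem e8_ck : ckP 14 e8L
    [(0, 5, 7, 2, 8, 9), (5, 4, 3, 6, 2, 1)]
    [6, 6] [7] 6 = true := by decide +kernel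

theorem c_AA_b : CovS [11, 11] [7] := covG e8_ck [1, 1] (by decide +kernel)

/-! 8, 8, 13 | , hub 9 -/

def e15L : List Tr :=
  [(23, 24, 26), (21, 23, 26), (21, 22, 26), (24, 25, 26), (22, 25, 26), (0, 22, 25),
   (2, 24, 25), (0, 2, 25), (19, 23, 24), (2, 19, 24), (18, 21, 23), (18, 19, 23),
   (0, 20, 22), (20, 21, 22), (18, 20, 21), (0, 17, 20), (17, 18, 20), (16, 18, 19),
   (2, 16, 19), (14, 16, 18), (15, 17, 18), (14, 15, 18), (0, 10, 17), (10, 15, 17),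
   (12, 14, 16), (2, 12, 16), (10, 13, 15), (13, 14, 15), (12, 13, 14), (10, 11, 13),
   (11, 12, 13), (2, 11, 12), (9, 10, 11), (2, 9, 11), (8, 9, 10), (0, 6, 10), (6, 8, 10),
   (7, 8, 9), (2, 7, 9), (5, 6, 8), (5, 7, 8), (3, 5, 7), (2, 3, 7), (0, 4, 6), (4, 5, 6),
   (3, 4, 5), (0, 1, 4), (1, 3, 4), (1, 2, 3), (0, 1, 2)]

theorem e15_ck : ckP 27 e15L
    [(0, 18, 20, 17, 22, 21), (18, 10, 15, 17, 14, 13), (10, 2, 9, 11, 8, 7)]
    [8, 8, 13] [] 9 = true := by decide +kernel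

theorem c_CCC_O : CovS [13, 13, 13] [] := covG e15_ck [1, 1, 0] (by decide +kernel)

/-! 9, 9 | 8, hub 6 -/

def e17L : List Tr :=
  [(17, 18, 20), (15, 17, 20), (15, 16, 20), (18, 19, 20), (16, 19, 20), (7, 16, 19),
   (8, 18, 19), (7, 8, 19), (2, 17, 18), (2, 8, 18), (1, 15, 17), (1, 2, 17), (7, 14, 16),
   (14, 15, 16), (1, 14, 15), (7, 13, 14), (1, 13, 14), (1, 11, 13), (7, 12, 13),
   (11, 12, 13), (10, 11, 12), (7, 9, 12), (9, 10, 12), (3, 10, 11), (1, 3, 11), (4, 9, 10),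
   (3, 4, 10), (5, 7, 9), (4, 5, 9), (2, 6, 8), (6, 7, 8), (5, 6, 7), (0, 2, 6), (0, 5, 6),
   (0, 4, 5), (0, 3, 4), (0, 1, 3), (0, 1, 2)]

theorem e17_ck : ckP 21 e17L
    [(0, 7, 5, 6, 4, 9), (7, 1, 13, 14, 12, 11)]
    [9, 9] [8] 6 = true := by decide +kernel

theorem c_D_dc : CovS [14] [9, 8] := covG e17_ck [1] (by decide +kernel)

theorem c_DD_c : CovS [14, 14] [8] := covG e17_ck [1, 1] (by decide +kernel)

/-! 12 | 6, 6, 6, hub 4 -/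

def e36L : List Tr :=
  [(14, 15, 17), (12, 14, 17), (12, 13, 17), (15, 16, 17), (13, 16, 17), (9, 13, 16),
   (7, 15, 16), (7, 9, 16), (1, 14, 15), (1, 7, 15), (10, 12, 14), (1, 10, 14), (9, 11, 13),
   (11, 12, 13), (10, 11, 12), (8, 9, 11), (8, 10, 11), (1, 8, 10), (6, 7, 9), (6, 8, 9),
   (1, 6, 8), (1, 5, 7), (5, 6, 7), (4, 5, 6), (1, 4, 6), (1, 3, 5), (3, 4, 5), (0, 3, 4),
   (0, 1, 4), (1, 2, 3), (0, 2, 3), (0, 1, 2)]

theorem e36_ck : ckP 18 e36L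
    [(0, 1, 3, 2, 4, 5)]
    [12] [6, 6, 6] 4 = true := by decide +kernel

theorem c_B_aaa : CovS [12] [6, 6, 6] := covG e36_ck [0] (by decide +kernel)

/-! 9, 9, 9, 9 | 9, hub 5 -/

def e39L : List Tr :=
  [(25, 26, 28), (23, 25, 28), (23, 24, 28), (26, 27, 28), (24, 27, 28), (13, 24, 27),
   (10, 26, 27), (10, 13, 27), (17, 25, 26), (10, 17, 26), (21, 23, 25), (17, 21, 25),
   (13, 22, 24), (22, 23, 24), (21, 22, 23), (13, 20, 22), (20, 21, 22), (17, 20, 21),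
   (13, 19, 20), (17, 19, 20), (13, 15, 19), (15, 18, 19), (17, 18, 19), (16, 17, 18),
   (14, 15, 18), (14, 16, 18), (2, 16, 17), (2, 10, 17), (3, 14, 16), (2, 3, 16),
   (12, 13, 15), (12, 14, 15), (3, 12, 14), (10, 11, 13), (11, 12, 13), (3, 11, 12),
   (9, 10, 11), (3, 9, 11), (8, 9, 10), (2, 7, 10), (7, 8, 10), (5, 8, 9), (3, 5, 9),
   (6, 7, 8), (5, 6, 8), (0, 2, 7), (0, 6, 7), (0, 4, 6), (4, 5, 6), (3, 4, 5), (0, 1, 4),
   (1, 3, 4), (1, 2, 3), (0, 1, 2)]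

theorem e39_ck : ckP 29 e39L
    [(0, 10, 7, 2, 6, 8), (10, 3, 9, 11, 8, 5), (3, 13, 12, 11, 14, 15), (13, 17, 19, 20, 15, 18)]
    [9, 9, 9, 9] [9] 5 = true := by decide +kernel

theorem c_O_ddddd : CovS [] [9, 9, 9, 9, 9] := covG e39_ck [] (by decide +kernel)

theorem c_D_dddd : CovS [14] [9, 9, 9, 9] := covG e39_ck [1] (by decide +kernel)

theorem c_DD_ddd : CovS [14, 14] [9, 9, 9] := covG e39_ck [1, 1] (by decide +kernel)

theorem c_DDD_dd : CovS [14, 14, 14] [9, 9] := covG e39_ck [1, 1, 1] (by decide +kernel)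

theorem c_DDDD_d : CovS [14, 14, 14, 14] [9] := covG e39_ck [1, 1, 1, 1] (by decide +kernel)

/-! 11, 11, 6, 6 | 6, hub 5 -/

def e41L : List Tr :=
  [(20, 21, 23), (19, 20, 23), (18, 19, 23), (21, 22, 23), (18, 22, 23), (16, 18, 22),
   (17, 21, 22), (16, 17, 22), (4, 20, 21), (4, 17, 21), (1, 19, 20), (1, 4, 20),
   (13, 18, 19), (1, 13, 19), (14, 16, 18), (13, 14, 18), (4, 15, 17), (15, 16, 17),
   (14, 15, 16), (4, 12, 15), (12, 14, 15), (12, 13, 14), (1, 12, 13), (4, 11, 12),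
   (1, 11, 12), (1, 9, 11), (4, 10, 11), (9, 10, 11), (8, 9, 10), (4, 6, 10), (6, 8, 10),
   (7, 8, 9), (1, 7, 9), (5, 6, 8), (5, 7, 8), (0, 5, 7), (0, 1, 7), (3, 4, 6), (3, 5, 6),
   (0, 3, 5), (1, 2, 4), (2, 3, 4), (0, 2, 3), (0, 1, 2)]

theorem e41_ck : ckP 24 e41L
    [(0, 4, 3, 2, 5, 6), (4, 1, 11, 12, 10, 9), (1, 18, 19, 13, 20, 23), (18, 12, 14, 13, 16, 15)]
    [11, 11, 6, 6] [6] 5 = true := by decide +kernel

theorem c_AA_aaa : CovS [11, 11] [6, 6, 6] := covG e41_ck [0, 0] (by decide +kernel)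

theorem c_AAAA_a : CovS [11, 11, 11, 11] [6] := covG e41_ck [0, 0, 1, 1] (by decide +kernel)

end Pool.Agent.Helper86.HC
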