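import Pool.Agent.Helper86.HC.Cov

/-!
# End pieces, part 1 (found by computer)
-/

namespace Pool.Agent.Helper86.HC

open Pool.Agent.Helper79.HH

/-!  | 7, 6, hub 5 -/

def e0L : List Tr :=
  [(8, 9, 11), (6, 8, 11), (6, 7, 11), (9, 10, 11), (7, 10, 11), (2, 7, 10), (1, 9, 10),
   (1, 2, 10), (3, 8, 9), (1, 3, 9), (4, 6, 8), (3, 4, 8), (2, 5, 7), (5, 6, 7), (4, 5, 6),
   (0, 2, 5), (0, 4, 5), (0, 3, 4), (0, 1, 3), (0, 1, 2)]

theorem e0_ck : ckP 12 e0L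
    []
    [] [7, 6] 5 = true := by decide +kernel

theorem c_O_ba : CovS [] [7, 6] := covG e0_ck [] (by decide +kernel)

/-! 6, 8 | , hub 6 -/

def e1L : List Tr :=
  [(10, 11, 13), (8, 10, 13), (8, 9, 13), (11, 12, 13), (9, 12, 13), (5, 9, 12), (6, 11, 12),
   (5, 6, 12), (0, 10, 11), (0, 6, 11), (2, 8, 10), (0, 2, 10), (5, 7, 9), (7, 8, 9),
   (2, 7, 8), (3, 5, 7), (2, 3, 7), (0, 4, 6), (4, 5, 6), (3, 4, 5), (0, 1, 4), (1, 3, 4),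
   (1, 2, 3), (0, 1, 2)]

theorem e1_ck : ckP 14 e1L
    [(0, 5, 4, 6, 1, 3), (5, 2, 7, 3, 9, 8)]
    [6, 8] [] 6 = true := by decide +kernel

theorem c_AC_O : CovS [11, 13] [] := covG e1_ck [1, 1] (by decide +kernel)

/-! 7, 9 | , hub 7 -/

def e2L : List Tr :=
  [(13, 14, 16), (11, 13, 16), (11, 12, 16), (14, 15, 16), (12, 15, 16), (0, 12, 15),
   (2, 14, 15), (0, 2, 15), (9, 13, 14), (2, 9, 14), (8, 11, 13), (8, 9, 13), (0, 10, 12),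
   (10, 11, 12), (8, 10, 11), (0, 6, 10), (6, 8, 10), (7, 8, 9), (2, 7, 9), (5, 6, 8),
   (5, 7, 8), (3, 5, 7), (2, 3, 7), (0, 4, 6), (4, 5, 6), (3, 4, 5), (0, 1, 4), (1, 3, 4),
   (1, 2, 3), (0, 1, 2)]

theorem e2_ck : ckP 17 e2L
    [(0, 8, 6, 10, 4, 5), (8, 2, 7, 9, 5, 3)]
    [7, 9] [] 7 = true := by decide +kernel

theorem c_BD_O : CovS [12, 14] [] := covG e2_ck [1, 1] (by decide +kernel)

/-! 8, 8 | 7, hub 4 -/

def e14L : List Tr :=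
  [(12, 13, 15), (10, 12, 15), (10, 11, 15), (13, 14, 15), (11, 14, 15), (4, 11, 14),
   (6, 13, 14), (4, 6, 14), (5, 12, 13), (5, 6, 13), (8, 10, 12), (5, 8, 12), (4, 9, 11),
   (9, 10, 11), (8, 9, 10), (4, 7, 9), (7, 8, 9), (5, 7, 8), (3, 4, 7), (3, 5, 7), (2, 5, 6),
   (2, 4, 6), (1, 3, 5), (1, 2, 5), (0, 2, 4), (0, 3, 4), (0, 1, 3), (0, 1, 2)]

theorem e14_ck : ckP 16 e14L
    [(0, 5, 3, 1, 4, 7), (5, 4, 6, 2, 13, 14)]
    [8, 8] [7] 4 = true := by decide +kernel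

theorem c_O_ccb : CovS [] [8, 8, 7] := covG e14_ck [] (by decide +kernel)

theorem c_C_cb : CovS [13] [8, 7] := covG e14_ck [1] (by decide +kernel)

theorem c_CC_b : CovS [13, 13] [7] := covG e14_ck [1, 1] (by decide +kernel)

/-! 11, 9, 6 | , hub 6 -/

def e19L : List Tr :=
  [(17, 18, 20), (15, 17, 20), (15, 16, 20), (18, 19, 20), (16, 19, 20), (13, 16, 19),
   (1, 18, 19), (1, 13, 19), (9, 17, 18), (1, 9, 18), (8, 15, 17), (8, 9, 17), (13, 14, 16),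
   (14, 15, 16), (8, 14, 15), (12, 13, 14), (8, 12, 14), (1, 11, 13), (11, 12, 13),
   (10, 11, 12), (8, 10, 12), (1, 7, 11), (7, 10, 11), (6, 7, 10), (6, 8, 10), (0, 8, 9),
   (0, 1, 9), (4, 6, 8), (0, 4, 8), (1, 5, 7), (5, 6, 7), (4, 5, 6), (1, 3, 5), (3, 4, 5),
   (0, 3, 4), (1, 2, 3), (0, 2, 3), (0, 1, 2)]

theorem e19_ck : ckP 21 e19L
    [(0, 1, 3, 2, 4, 5), (1, 8, 9, 0, 18, 17), (8, 13, 12, 14, 10, 11)]
    [11, 9, 6] [] 6 = true := by decide +kernel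

theorem c_A_da : CovS [11] [9, 6] := covG e19_ck [0] (by decide +kernel)

theorem c_ADA_O : CovS [11, 14, 11] [] := covG e19_ck [0, 1, 1] (by decide +kernel)

/-! 9, 9, 6, 9 | , hub 5 -/

def e29L : List Tr :=
  [(18, 19, 21), (16, 18, 21), (16, 17, 21), (19, 20, 21), (17, 20, 21), (7, 17, 20),
   (12, 19, 20), (7, 12, 20), (11, 18, 19), (11, 12, 19), (14, 16, 18), (11, 14, 18),
   (7, 15, 17), (15, 16, 17), (14, 15, 16), (7, 13, 15), (13, 14, 15), (11, 13, 14),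
   (1, 7, 13), (1, 11, 13), (10, 11, 12), (7, 10, 12), (9, 10, 11), (1, 5, 11), (5, 9, 11),
   (8, 9, 10), (7, 8, 10), (4, 5, 9), (4, 8, 9), (4, 6, 8), (6, 7, 8), (1, 6, 7), (0, 4, 6),
   (0, 1, 6), (1, 3, 5), (3, 4, 5), (0, 3, 4), (1, 2, 3), (0, 2, 3), (0, 1, 2)]

theorem e29_ck : ckP 22 e29L
    [(0, 7, 6, 1, 4, 8), (7, 11, 12, 10, 20, 19), (11, 4, 9, 5, 10, 8), (4, 1, 3, 5, 0, 2)]
    [9, 9, 6, 9] [] 5 = true := by decide +kernel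

theorem c_DD_da : CovS [14, 14] [9, 6] := covG e29_ck [1, 1] (by decide +kernel)

theorem c_DDA_d : CovS [14, 14, 11] [9] := covG e29_ck [1, 1, 1] (by decide +kernel)

theorem c_DDAD_O : CovS [14, 14, 11, 14] [] := covG e29_ck [1, 1, 1, 1] (by decide +kernel)

/-! 9, 9, 9, 6 | , hub 6 -/

def e30L : List Tr :=
  [(19, 20, 22), (18, 19, 22), (17, 18, 22), (20, 21, 22), (17, 21, 22), (16, 17, 21),
   (3, 20, 21), (3, 16, 21), (12, 19, 20), (3, 12, 20), (11, 18, 19), (11, 12, 19),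
   (14, 17, 18), (11, 14, 18), (15, 16, 17), (14, 15, 17), (2, 3, 16), (2, 15, 16),
   (2, 13, 15), (13, 14, 15), (11, 13, 14), (2, 10, 13), (10, 11, 13), (9, 11, 12),
   (3, 9, 12), (7, 9, 11), (8, 10, 11), (7, 8, 11), (0, 2, 10), (0, 8, 10), (5, 7, 9),
   (3, 5, 9), (0, 6, 8), (6, 7, 8), (5, 6, 7), (0, 4, 6), (4, 5, 6), (3, 4, 5), (0, 1, 4),
   (1, 3, 4), (1, 2, 3), (0, 1, 2)]

theorem e30_ck : ckP 23 e30L
    [(0, 3, 4, 1, 6, 5), (3, 11, 9, 12, 5, 7), (11, 2, 10, 13, 8, 0), (2, 17, 15, 16, 13, 14)]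
    [9, 9, 9, 6] [] 6 = true := by decide +kernel

theorem c_DDD_a : CovS [14, 14, 14] [6] := covG e30_ck [1, 1, 1] (by decide +kernel)

theorem c_DDDA_O : CovS [14, 14, 14, 11] [] := covG e30_ck [1, 1, 1, 1] (by decide +kernel)

/-! 14, 9, 9, 9, 9 | , hub 10 -/

def e43L : List Tr :=
  [(35, 36, 38), (33, 35, 38), (33, 34, 38), (36, 37, 38), (34, 37, 38), (20, 34, 37),
   (21, 36, 37), (20, 21, 37), (31, 35, 36), (21, 31, 36), (30, 33, 35), (30, 31, 35),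
   (20, 32, 34), (32, 33, 34), (30, 32, 33), (20, 26, 32), (26, 30, 32), (29, 30, 31),
   (21, 29, 31), (28, 29, 30), (27, 28, 30), (25, 26, 30), (25, 27, 30), (1, 28, 29),
   (1, 21, 29), (22, 27, 28), (1, 22, 28), (23, 25, 27), (22, 23, 27), (20, 24, 26),
   (24, 25, 26), (23, 24, 25), (0, 20, 24), (0, 23, 24), (0, 22, 23), (0, 1, 22),
   (19, 20, 21), (18, 19, 21), (1, 16, 21), (16, 18, 21), (10, 19, 20), (0, 10, 20),
   (17, 18, 19), (10, 17, 19), (15, 16, 18), (15, 17, 18), (13, 15, 17), (10, 13, 17),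
   (1, 14, 16), (14, 15, 16), (13, 14, 15), (1, 12, 14), (12, 13, 14), (10, 12, 13),
   (1, 11, 12), (10, 11, 12), (9, 10, 11), (1, 7, 11), (7, 9, 11), (8, 9, 10), (0, 8, 10),
   (6, 7, 9), (6, 8, 9), (4, 6, 8), (0, 4, 8), (1, 5, 7), (5, 6, 7), (4, 5, 6), (1, 3, 5),
   (3, 4, 5), (0, 3, 4), (1, 2, 3), (0, 2, 3), (0, 1, 2)]

theorem e43_ck : ckP 39 e43L
    [(0, 1, 3, 2, 4, 5), (1, 10, 11, 12, 7, 9), (10, 21, 19, 20, 17, 18), (21, 30, 29, 31, 1, 28), (30, 20, 26, 32, 25, 24)]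
    [14, 9, 9, 9, 9] [] 10 = true := by decide +kernel

theorem c_DDDDD_O : CovS [14, 14, 14, 14, 14] [] := covG e43_ck [0, 1, 1, 1, 1] (by decide +kernel)

end Pool.Agent.Helper86.HC
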