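import Pool.Agent.Helper86.HC.Cov

/-!
# End pieces, part 2 (found by computer)
-/

namespace Pool.Agent.Helper86.HC

open Pool.Agent.Helper79.HH

/-! 6, 7 | 6, hub 6 -/

def e10L : List Tr :=
  [(10, 11, 13), (8, 10, 13), (8, 9, 13), (11, 12, 13), (9, 12, 13), (5, 9, 12), (6, 11, 12),
   (5, 6, 12), (1, 10, 11), (1, 6, 11), (0, 8, 10), (0, 1, 10), (5, 7, 9), (7, 8, 9),
   (0, 7, 8), (3, 5, 7), (0, 3, 7), (1, 4, 6), (4, 5, 6), (3, 4, 5), (1, 2, 4), (2, 3, 4),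
   (0, 2, 3), (0, 1, 2)]

theorem e10_ck : ckP 14 e10L
    [(0, 5, 3, 7, 2, 4), (5, 1, 6, 4, 12, 11)]
    [6, 7] [6] 6 = true := by decide +kernel

theorem c_AB_a : CovS [11, 12] [6] := covG e10_ck [1, 1] (by decide +kernel)

/-! 6, 9 | 6, hub 5 -/

def e11L : List Tr :=
  [(11, 12, 14), (9, 11, 14), (9, 10, 14), (12, 13, 14), (10, 13, 14), (2, 10, 13),
   (7, 12, 13), (2, 7, 13), (5, 11, 12), (5, 7, 12), (6, 9, 11), (5, 6, 11), (2, 8, 10),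
   (8, 9, 10), (6, 8, 9), (0, 2, 8), (0, 6, 8), (3, 5, 7), (2, 3, 7), (0, 4, 6), (4, 5, 6),
   (3, 4, 5), (0, 1, 4), (1, 3, 4), (1, 2, 3), (0, 1, 2)]

theorem e11_ck : ckP 15 e11L
    [(0, 5, 4, 6, 1, 3), (5, 2, 7, 3, 12, 13)]
    [6, 9] [6] 5 = true := by decide +kernel

theorem c_O_daa : CovS [] [9, 6, 6] := covG e11_ck [] (by decide +kernel)

theorem c_AD_a : CovS [11, 14] [6] := covG e11_ck [1, 1] (by decide +kernel)

/-! 7, 7 | 7, 7, hub 5 -/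

def e22L : List Tr :=
  [(13, 14, 16), (11, 13, 16), (11, 12, 16), (14, 15, 16), (12, 15, 16), (3, 12, 15),
   (4, 14, 15), (3, 4, 15), (9, 13, 14), (4, 9, 14), (8, 11, 13), (8, 9, 13), (3, 10, 12),
   (10, 11, 12), (8, 10, 11), (3, 6, 10), (6, 8, 10), (7, 8, 9), (4, 7, 9), (5, 6, 8),
   (5, 7, 8), (0, 5, 7), (0, 4, 7), (2, 3, 6), (2, 5, 6), (0, 2, 5), (0, 1, 4), (1, 3, 4),
   (1, 2, 3), (0, 1, 2)]

theorem e22_ck : ckP 17 e22L
    [(0, 8, 5, 7, 2, 6), (8, 3, 10, 6, 11, 12)]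
    [7, 7] [7, 7] 5 = true := by decide +kernel

theorem c_O_bbbb : CovS [] [7, 7, 7, 7] := covG e22_ck [] (by decide +kernel)

theorem c_BB_bb : CovS [12, 12] [7, 7] := covG e22_ck [1, 1] (by decide +kernel)

/-! 8, 8, 8 | 8, hub 4 -/

def e24L : List Tr :=
  [(16, 17, 19), (14, 16, 19), (14, 15, 19), (17, 18, 19), (15, 18, 19), (7, 15, 18),
   (3, 17, 18), (3, 7, 18), (9, 16, 17), (3, 9, 17), (12, 14, 16), (9, 12, 16), (7, 13, 15),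
   (13, 14, 15), (12, 13, 14), (7, 11, 13), (11, 12, 13), (9, 11, 12), (7, 10, 11),
   (9, 10, 11), (8, 9, 10), (6, 7, 10), (6, 8, 10), (4, 8, 9), (3, 4, 9), (2, 6, 8),
   (2, 4, 8), (3, 5, 7), (5, 6, 7), (2, 5, 6), (1, 3, 5), (1, 2, 5), (0, 2, 4), (0, 3, 4),
   (0, 1, 3), (0, 1, 2)]

theorem e24_ck : ckP 20 e24L
    [(0, 9, 4, 3, 2, 8), (9, 7, 10, 11, 8, 6), (7, 2, 5, 6, 3, 1)]
    [8, 8, 8] [8] 4 = true := by decide +kernel

theorem c_O_cccc : CovS [] [8, 8, 8, 8] := covG e24_ck [] (by decide +kernel)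

theorem c_C_ccc : CovS [13] [8, 8, 8] := covG e24_ck [1] (by decide +kernel)

theorem c_CC_cc : CovS [13, 13] [8, 8] := covG e24_ck [1, 1] (by decide +kernel)

theorem c_CCC_c : CovS [13, 13, 13] [8] := covG e24_ck [1, 1, 1] (by decide +kernel)

/-! 11, 11, 6, 9 | , hub 4 -/

def e34L : List Tr :=
  [(21, 22, 24), (19, 21, 24), (19, 20, 24), (22, 23, 24), (20, 23, 24), (12, 20, 23),
   (15, 22, 23), (12, 15, 23), (5, 21, 22), (5, 15, 22), (17, 19, 21), (5, 17, 21),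
   (12, 18, 20), (18, 19, 20), (17, 18, 19), (12, 16, 18), (16, 17, 18), (14, 16, 17),
   (5, 14, 17), (12, 13, 16), (13, 14, 16), (5, 10, 15), (10, 12, 15), (1, 13, 14),
   (1, 5, 14), (11, 12, 13), (1, 11, 13), (9, 10, 12), (9, 11, 12), (7, 9, 11), (1, 7, 11),
   (5, 8, 10), (8, 9, 10), (7, 8, 9), (5, 6, 8), (6, 7, 8), (1, 6, 7), (4, 5, 6), (1, 4, 6),
   (1, 3, 5), (3, 4, 5), (0, 3, 4), (0, 1, 4), (1, 2, 3), (0, 2, 3), (0, 1, 2)]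

theorem e34_ck : ckP 25 e34L
    [(0, 5, 3, 4, 2, 1), (5, 1, 6, 4, 8, 7), (1, 17, 14, 5, 13, 16), (17, 12, 18, 16, 19, 20)]
    [11, 11, 6, 9] [] 4 = true := by decide +kernel

theorem c_AA_da : CovS [11, 11] [9, 6] := covG e34_ck [0, 0] (by decide +kernel)

theorem c_AAAD_O : CovS [11, 11, 11, 14] [] := covG e34_ck [0, 0, 1, 1] (by decide +kernel)

/-! 12, 7, 7 | 7, hub 4 -/

def e37L : List Tr :=
  [(17, 18, 20), (15, 17, 20), (15, 16, 20), (18, 19, 20), (16, 19, 20), (1, 16, 19),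
   (7, 18, 19), (1, 7, 19), (13, 17, 18), (7, 13, 18), (12, 15, 17), (12, 13, 17),
   (1, 14, 16), (14, 15, 16), (12, 14, 15), (1, 11, 14), (11, 12, 14), (9, 12, 13),
   (7, 9, 13), (10, 11, 12), (9, 10, 12), (1, 5, 11), (5, 10, 11), (5, 8, 10), (8, 9, 10),
   (7, 8, 9), (5, 6, 8), (6, 7, 8), (1, 6, 7), (4, 5, 6), (1, 4, 6), (1, 3, 5), (3, 4, 5),
   (0, 3, 4), (0, 1, 4), (1, 2, 3), (0, 2, 3), (0, 1, 2)]

theorem e37_ck : ckP 21 e37L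
    [(0, 1, 3, 2, 4, 5), (1, 5, 6, 4, 7, 8), (5, 12, 10, 11, 8, 9)]
    [12, 7, 7] [7] 4 = true := by decide +kernel

theorem c_B_bbb : CovS [12] [7, 7, 7] := covG e37_ck [0] (by decide +kernel)

theorem c_BBB_b : CovS [12, 12, 12] [7] := covG e37_ck [0, 1, 1] (by decide +kernel)

/-! 11, 11, 11, 11, 11 | , hub 4 -/

def e42L : List Tr :=
  [(34, 35, 37), (32, 34, 37), (32, 33, 37), (35, 36, 37), (33, 36, 37), (8, 33, 36),
   (17, 35, 36), (8, 17, 36), (18, 34, 35), (17, 18, 35), (19, 32, 34), (18, 19, 34),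
   (8, 31, 33), (31, 32, 33), (19, 31, 32), (8, 30, 31), (19, 30, 31), (8, 16, 30),
   (16, 29, 30), (19, 29, 30), (19, 27, 29), (16, 28, 29), (27, 28, 29), (26, 27, 28),
   (16, 24, 28), (24, 26, 28), (25, 26, 27), (19, 25, 27), (23, 24, 26), (23, 25, 26),
   (21, 23, 25), (19, 21, 25), (16, 22, 24), (22, 23, 24), (21, 22, 23), (16, 20, 22),
   (20, 21, 22), (19, 20, 21), (5, 16, 20), (5, 19, 20), (5, 18, 19), (5, 17, 18), (5, 8, 17),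
   (8, 12, 16), (5, 14, 16), (12, 15, 16), (14, 15, 16), (13, 14, 15), (11, 12, 15),
   (11, 13, 15), (1, 13, 14), (1, 5, 14), (9, 11, 13), (1, 9, 13), (8, 10, 12), (10, 11, 12),
   (9, 10, 11), (7, 8, 10), (7, 9, 10), (1, 7, 9), (5, 6, 8), (6, 7, 8), (1, 6, 7), (4, 5, 6),
   (1, 4, 6), (1, 3, 5), (3, 4, 5), (0, 3, 4), (0, 1, 4), (1, 2, 3), (0, 2, 3), (0, 1, 2)]

theorem e42_ck : ckP 38 e42L
    [(0, 5, 3, 4, 2, 1), (5, 1, 6, 4, 8, 7), (1, 16, 14, 5, 13, 15), (16, 19, 20, 5, 22, 21), (19, 8, 30, 31, 29, 16)]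
    [11, 11, 11, 11, 11] [] 4 = true := by decide +kernel

theorem c_AAAAA_O : CovS [11, 11, 11, 11, 11] [] := covG e42_ck [0, 0, 0, 0, 0] (by decide +kernel)

end Pool.Agent.Helper86.HC
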