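import Pool.Agent.Helper86.HC.Cov

/-!
# End pieces, part 3 (found by computer)
-/

namespace Pool.Agent.Helper86.HC

open Pool.Agent.Helper79.HH

/-! 6 | 8, 8, hub 3 -/

def e7L : List Tr :=
  [(10, 11, 13), (8, 10, 13), (8, 9, 13), (11, 12, 13), (9, 12, 13), (5, 9, 12), (2, 11, 12),
   (2, 5, 12), (1, 10, 11), (1, 2, 11), (6, 8, 10), (1, 6, 10), (5, 7, 9), (7, 8, 9),
   (6, 7, 8), (4, 5, 7), (4, 6, 7), (1, 4, 6), (2, 3, 5), (3, 4, 5), (1, 3, 4), (0, 2, 3),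
   (0, 1, 3), (0, 1, 2)]

theorem e7_ck : ckP 14 e7L
    [(0, 5, 3, 2, 1, 4)]
    [6] [8, 8] 3 = true := by decide +kernel

theorem c_O_cca : CovS [] [8, 8, 6] := covG e7_ck [] (by decide +kernel)

theorem c_A_cc : CovS [11] [8, 8] := covG e7_ck [1] (by decide +kernel)

/-! 7, 7 | 8, hub 5 -/

def e12L : List Tr :=
  [(12, 13, 15), (10, 12, 15), (10, 11, 15), (13, 14, 15), (11, 14, 15), (5, 11, 14),
   (1, 13, 14), (1, 5, 14), (6, 12, 13), (1, 6, 13), (8, 10, 12), (6, 8, 12), (5, 9, 11),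
   (9, 10, 11), (8, 9, 10), (5, 7, 9), (7, 8, 9), (6, 7, 8), (4, 5, 7), (4, 6, 7), (0, 4, 6),
   (0, 1, 6), (1, 3, 5), (3, 4, 5), (0, 3, 4), (1, 2, 3), (0, 2, 3), (0, 1, 2)]

theorem e12_ck : ckP 16 e12L
    [(0, 5, 3, 4, 2, 1), (5, 6, 7, 4, 9, 8)]
    [7, 7] [8] 5 = true := by decide +kernel

theorem c_O_cbb : CovS [] [8, 7, 7] := covG e12_ck [] (by decide +kernel)

theorem c_BB_c : CovS [12, 12] [8] := covG e12_ck [1, 1] (by decide +kernel)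

/-! 6, 9, 9, 9 | , hub 7 -/

def e20L : List Tr :=
  [(20, 21, 23), (19, 20, 23), (18, 19, 23), (21, 22, 23), (18, 22, 23), (17, 18, 22),
   (0, 21, 22), (0, 17, 22), (12, 20, 21), (0, 12, 21), (11, 19, 20), (11, 12, 20),
   (15, 18, 19), (11, 15, 19), (16, 17, 18), (15, 16, 18), (0, 4, 17), (4, 16, 17),
   (4, 14, 16), (14, 15, 16), (11, 14, 15), (4, 13, 14), (11, 13, 14), (10, 11, 13),
   (4, 8, 13), (8, 10, 13), (2, 11, 12), (0, 2, 12), (9, 10, 11), (2, 9, 11), (7, 8, 10),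
   (7, 9, 10), (5, 7, 9), (2, 5, 9), (4, 6, 8), (6, 7, 8), (5, 6, 7), (3, 4, 6), (3, 5, 6),
   (2, 3, 5), (0, 1, 4), (1, 3, 4), (1, 2, 3), (0, 1, 2)]

theorem e20_ck : ckP 24 e20L
    [(0, 18, 17, 22, 4, 16), (18, 11, 15, 19, 16, 14), (11, 4, 13, 14, 10, 8), (4, 2, 3, 1, 6, 5)]
    [6, 9, 9, 9] [] 7 = true := by decide +kernel

theorem c_AD_dd : CovS [11, 14] [9, 9] := covG e20_ck [1, 1] (by decide +kernel)

theorem c_ADDD_O : CovS [11, 14, 14, 14] [] := covG e20_ck [1, 1, 1, 1] (by decide +kernel)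

/-! 9, 6, 6, 6 | , hub 6 -/

def e26L : List Tr :=
  [(13, 14, 16), (12, 13, 16), (11, 12, 16), (14, 15, 16), (11, 15, 16), (10, 11, 15),
   (8, 14, 15), (8, 10, 15), (9, 13, 14), (8, 9, 14), (1, 12, 13), (1, 9, 13), (0, 11, 12),
   (0, 1, 12), (4, 10, 11), (0, 4, 11), (6, 8, 10), (4, 6, 10), (1, 7, 9), (7, 8, 9),
   (6, 7, 8), (1, 5, 7), (5, 6, 7), (4, 5, 6), (1, 3, 5), (3, 4, 5), (0, 3, 4), (1, 2, 3),
   (0, 2, 3), (0, 1, 2)]

theorem e26_ck : ckP 17 e26L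
    [(0, 1, 3, 2, 4, 5), (1, 11, 12, 0, 13, 16), (11, 8, 15, 10, 16, 14), (8, 4, 6, 10, 7, 5)]
    [9, 6, 6, 6] [] 6 = true := by decide +kernel

theorem c_O_daaa : CovS [] [9, 6, 6, 6] := covG e26_ck [] (by decide +kernel)

theorem c_D_aaa : CovS [14] [6, 6, 6] := covG e26_ck [1] (by decide +kernel)

theorem c_DA_aa : CovS [14, 11] [6, 6] := covG e26_ck [1, 1] (by decide +kernel)

theorem c_DAA_a : CovS [14, 11, 11] [6] := covG e26_ck [1, 1, 1] (by decide +kernel)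

theorem c_DAAA_O : CovS [14, 11, 11, 11] [] := covG e26_ck [1, 1, 1, 1] (by decide +kernel)

/-! 9, 8, 8, 9 | , hub 6 -/

def e28L : List Tr :=
  [(20, 21, 23), (18, 20, 23), (18, 19, 23), (21, 22, 23), (19, 22, 23), (8, 19, 22),
   (5, 21, 22), (5, 8, 22), (16, 20, 21), (5, 16, 21), (15, 18, 20), (15, 16, 20),
   (8, 17, 19), (17, 18, 19), (15, 17, 18), (8, 12, 17), (12, 15, 17), (14, 15, 16),
   (5, 14, 16), (13, 14, 15), (11, 12, 15), (11, 13, 15), (4, 13, 14), (4, 5, 14),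
   (9, 11, 13), (4, 9, 13), (8, 10, 12), (10, 11, 12), (9, 10, 11), (7, 8, 10), (7, 9, 10),
   (4, 7, 9), (5, 6, 8), (6, 7, 8), (4, 6, 7), (0, 5, 6), (0, 4, 6), (3, 4, 5), (0, 3, 5),
   (0, 1, 4), (1, 3, 4), (1, 2, 3), (0, 2, 3), (0, 1, 2)]

theorem e28_ck : ckP 24 e28L
    [(0, 4, 3, 5, 2, 1), (4, 8, 6, 7, 0, 5), (8, 15, 12, 17, 10, 11), (15, 5, 14, 16, 13, 4)]
    [9, 8, 8, 9] [] 6 = true := by decide +kernel

theorem c_O_ddcc : CovS [] [9, 9, 8, 8] := covG e28_ck [] (by decide +kernel)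

theorem c_D_dcc : CovS [14] [9, 8, 8] := covG e28_ck [1] (by decide +kernel)

theorem c_DC_dc : CovS [14, 13] [9, 8] := covG e28_ck [1, 1] (by decide +kernel)

theorem c_DCC_d : CovS [14, 13, 13] [9] := covG e28_ck [1, 1, 1] (by decide +kernel)

theorem c_DCCD_O : CovS [14, 13, 13, 14] [] := covG e28_ck [1, 1, 1, 1] (by decide +kernel)

/-! 11, 6, 6 | 9, hub 5 -/

def e31L : List Tr :=
  [(17, 18, 20), (16, 17, 20), (15, 16, 20), (18, 19, 20), (15, 19, 20), (8, 15, 19),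
   (7, 18, 19), (7, 8, 19), (14, 17, 18), (7, 14, 18), (12, 16, 17), (12, 14, 17),
   (13, 15, 16), (12, 13, 16), (1, 8, 15), (1, 13, 15), (10, 12, 14), (7, 10, 14),
   (1, 11, 13), (11, 12, 13), (10, 11, 12), (1, 9, 11), (9, 10, 11), (7, 9, 10), (1, 5, 9),
   (5, 7, 9), (6, 7, 8), (1, 6, 8), (4, 5, 7), (4, 6, 7), (0, 4, 6), (0, 1, 6), (1, 3, 5),
   (3, 4, 5), (0, 3, 4), (1, 2, 3), (0, 2, 3), (0, 1, 2)]

theorem e31_ck : ckP 21 e31L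
    [(0, 1, 3, 2, 4, 5), (1, 12, 11, 13, 9, 10), (12, 15, 16, 13, 17, 20)]
    [11, 6, 6] [9] 5 = true := by decide +kernel

theorem c_A_daa : CovS [11] [9, 6, 6] := covG e31_ck [0] (by decide +kernel)

theorem c_AAA_d : CovS [11, 11, 11] [9] := covG e31_ck [0, 1, 1] (by decide +kernel)

/-! 11, 6, 6 | 6, 6, hub 4 -/

def e40L : List Tr :=
  [(14, 15, 17), (12, 14, 17), (12, 13, 17), (15, 16, 17), (13, 16, 17), (9, 13, 16),
   (10, 15, 16), (9, 10, 16), (8, 14, 15), (8, 10, 15), (1, 12, 14), (1, 8, 14), (9, 11, 13),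
   (11, 12, 13), (1, 11, 12), (6, 9, 11), (1, 6, 11), (7, 8, 10), (7, 9, 10), (6, 7, 9),
   (1, 5, 8), (5, 7, 8), (5, 6, 7), (4, 5, 6), (1, 4, 6), (1, 3, 5), (3, 4, 5), (0, 3, 4),
   (0, 1, 4), (1, 2, 3), (0, 2, 3), (0, 1, 2)]

theorem e40_ck : ckP 18 e40L
    [(0, 1, 3, 2, 4, 5), (1, 9, 11, 6, 12, 13), (9, 5, 7, 6, 10, 8)]
    [11, 6, 6] [6, 6] 4 = true := by decide +kernel

theorem c_A_aaaa : CovS [11] [6, 6, 6, 6] := covG e40_ck [0] (by decide +kernel)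

theorem c_AAA_aa : CovS [11, 11, 11] [6, 6] := covG e40_ck [0, 1, 1] (by decide +kernel)

end Pool.Agent.Helper86.HC
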