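import Pool.Agent.Helper86.HC.Cov

/-!
# End pieces, part 4 (found by computer)
-/

namespace Pool.Agent.Helper86.HC

open Pool.Agent.Helper79.HH

/-! 8, 6 | , hub 7 -/

def e3L : List Tr :=
  [(11, 12, 14), (9, 11, 14), (9, 10, 14), (12, 13, 14), (10, 13, 14), (6, 10, 13),
   (7, 12, 13), (6, 7, 13), (1, 11, 12), (1, 7, 12), (0, 9, 11), (0, 1, 11), (6, 8, 10),
   (8, 9, 10), (0, 8, 9), (4, 6, 8), (0, 4, 8), (1, 5, 7), (5, 6, 7), (4, 5, 6), (1, 3, 5),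
   (3, 4, 5), (0, 3, 4), (1, 2, 3), (0, 2, 3), (0, 1, 2)]

theorem e3_ck : ckP 15 e3L
    [(0, 1, 3, 2, 4, 5), (1, 6, 7, 5, 12, 13)]
    [8, 6] [] 7 = true := by decide +kernel

theorem c_CA_O : CovS [13, 11] [] := covG e3_ck [1, 1] (by decide +kernel)

/-! 9, 7 | , hub 5 -/

def e4L : List Tr :=
  [(11, 12, 14), (9, 11, 14), (9, 10, 14), (12, 13, 14), (10, 13, 14), (4, 10, 13),
   (5, 12, 13), (4, 5, 13), (1, 11, 12), (1, 5, 12), (7, 9, 11), (1, 7, 11), (4, 8, 10),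
   (8, 9, 10), (7, 8, 9), (4, 6, 8), (6, 7, 8), (1, 6, 7), (0, 4, 6), (0, 1, 6), (1, 3, 5),
   (3, 4, 5), (0, 3, 4), (1, 2, 3), (0, 2, 3), (0, 1, 2)]

theorem e4_ck : ckP 15 e4L
    [(0, 1, 3, 2, 4, 5), (1, 4, 6, 0, 7, 8)]
    [9, 7] [] 5 = true := by decide +kernel

theorem c_O_db : CovS [] [9, 7] := covG e4_ck [] (by decide +kernel)

theorem c_D_b : CovS [14] [7] := covG e4_ck [1] (by decide +kernel)

theorem c_DB_O : CovS [14, 12] [] := covG e4_ck [1, 1] (by decide +kernel)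

/-! 8, 9 | 9, hub 5 -/

def e16L : List Tr :=
  [(16, 17, 19), (14, 16, 19), (14, 15, 19), (17, 18, 19), (15, 18, 19), (10, 15, 18),
   (2, 17, 18), (2, 10, 18), (3, 16, 17), (2, 3, 17), (12, 14, 16), (3, 12, 16), (10, 13, 15),
   (13, 14, 15), (12, 13, 14), (10, 11, 13), (11, 12, 13), (3, 11, 12), (9, 10, 11),
   (3, 9, 11), (8, 9, 10), (2, 7, 10), (7, 8, 10), (5, 8, 9), (3, 5, 9), (6, 7, 8), (5, 6, 8),
   (0, 2, 7), (0, 6, 7), (0, 4, 6), (4, 5, 6), (3, 4, 5), (0, 1, 4), (1, 3, 4), (1, 2, 3),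
   (0, 1, 2)]

theorem e16_ck : ckP 20 e16L
    [(0, 10, 7, 2, 6, 8), (10, 3, 9, 11, 8, 5)]
    [8, 9] [9] 5 = true := by decide +kernel

theorem c_O_ddc : CovS [] [9, 9, 8] := covG e16_ck [] (by decide +kernel)

theorem c_C_dd : CovS [13] [9, 9] := covG e16_ck [1] (by decide +kernel)

theorem c_CD_d : CovS [13, 14] [9] := covG e16_ck [1, 1] (by decide +kernel)

/-! 7, 6, 6, 6 | , hub 9 -/

def e21L : List Tr :=
  [(14, 15, 17), (13, 14, 17), (11, 13, 17), (11, 12, 17), (15, 16, 17), (12, 16, 17),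
   (0, 12, 16), (4, 15, 16), (0, 4, 16), (5, 14, 15), (4, 5, 15), (7, 13, 14), (5, 7, 14),
   (9, 11, 13), (7, 9, 13), (0, 10, 12), (10, 11, 12), (9, 10, 11), (0, 8, 10), (8, 9, 10),
   (7, 8, 9), (0, 6, 8), (6, 7, 8), (5, 6, 7), (0, 1, 6), (1, 5, 6), (1, 3, 5), (3, 4, 5),
   (0, 3, 4), (1, 2, 3), (0, 2, 3), (0, 1, 2)]

theorem e21_ck : ckP 18 e21L
    [(0, 5, 3, 4, 2, 1), (5, 17, 15, 14, 4, 16), (17, 7, 13, 14, 11, 9), (7, 1, 6, 5, 8, 0)]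
    [7, 6, 6, 6] [] 9 = true := by decide +kernel

theorem c_BA_aa : CovS [12, 11] [6, 6] := covG e21_ck [1, 1] (by decide +kernel)

theorem c_BAAA_O : CovS [12, 11, 11, 11] [] := covG e21_ck [1, 1, 1, 1] (by decide +kernel)

/-! 9, 6, 9, 9 | , hub 5 -/

def e27L : List Tr :=
  [(18, 19, 21), (16, 18, 21), (16, 17, 21), (19, 20, 21), (17, 20, 21), (7, 17, 20),
   (12, 19, 20), (7, 12, 20), (11, 18, 19), (11, 12, 19), (14, 16, 18), (11, 14, 18),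
   (7, 15, 17), (15, 16, 17), (14, 15, 16), (7, 13, 15), (13, 14, 15), (11, 13, 14),
   (1, 7, 13), (1, 11, 13), (10, 11, 12), (7, 10, 12), (9, 10, 11), (1, 5, 11), (5, 9, 11),
   (8, 9, 10), (7, 8, 10), (4, 5, 9), (4, 8, 9), (4, 6, 8), (6, 7, 8), (1, 6, 7), (0, 4, 6),
   (0, 1, 6), (1, 3, 5), (3, 4, 5), (0, 3, 4), (1, 2, 3), (0, 2, 3), (0, 1, 2)]

theorem e27_ck : ckP 22 e27L
    [(0, 1, 3, 2, 4, 5), (1, 4, 6, 0, 7, 8), (4, 11, 9, 5, 8, 10), (11, 7, 12, 10, 19, 20)]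
    [9, 6, 9, 9] [] 5 = true := by decide +kernel

theorem c_O_ddda : CovS [] [9, 9, 9, 6] := covG e27_ck [] (by decide +kernel)

theorem c_D_dda : CovS [14] [9, 9, 6] := covG e27_ck [1] (by decide +kernel)

theorem c_DA_dd : CovS [14, 11] [9, 9] := covG e27_ck [1, 1] (by decide +kernel)

theorem c_DAD_d : CovS [14, 11, 14] [9] := covG e27_ck [1, 1, 1] (by decide +kernel)

theorem c_DADD_O : CovS [14, 11, 14, 14] [] := covG e27_ck [1, 1, 1, 1] (by decide +kernel)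

/-! 11, 9, 9 | 9, hub 5 -/

def e32L : List Tr :=
  [(23, 24, 26), (21, 23, 26), (21, 22, 26), (24, 25, 26), (22, 25, 26), (17, 22, 25),
   (7, 24, 25), (7, 17, 25), (10, 23, 24), (7, 10, 24), (19, 21, 23), (10, 19, 23),
   (17, 20, 22), (20, 21, 22), (19, 20, 21), (17, 18, 20), (18, 19, 20), (10, 18, 19),
   (16, 17, 18), (10, 16, 18), (15, 16, 17), (14, 15, 17), (7, 8, 17), (8, 14, 17),
   (12, 15, 16), (10, 12, 16), (13, 14, 15), (12, 13, 15), (1, 8, 14), (1, 13, 14),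
   (1, 11, 13), (11, 12, 13), (10, 11, 12), (1, 9, 11), (9, 10, 11), (7, 9, 10), (1, 5, 9),
   (5, 7, 9), (6, 7, 8), (1, 6, 8), (4, 5, 7), (4, 6, 7), (0, 4, 6), (0, 1, 6), (1, 3, 5),
   (3, 4, 5), (0, 3, 4), (1, 2, 3), (0, 2, 3), (0, 1, 2)]

theorem e32_ck : ckP 27 e32L
    [(0, 1, 3, 2, 4, 5), (1, 10, 9, 11, 5, 7), (10, 17, 16, 18, 12, 15)]
    [11, 9, 9] [9] 5 = true := by decide +kernel

theorem c_A_ddd : CovS [11] [9, 9, 9] := covG e32_ck [0] (by decide +kernel)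

theorem c_ADD_d : CovS [11, 14, 14] [9] := covG e32_ck [0, 1, 1] (by decide +kernel)

/-! 11, 11, 6, 7 | , hub 5 -/

def e33L : List Tr :=
  [(20, 21, 23), (18, 20, 23), (18, 19, 23), (21, 22, 23), (19, 22, 23), (15, 19, 22),
   (16, 21, 22), (15, 16, 22), (3, 20, 21), (3, 16, 21), (12, 18, 20), (3, 12, 20),
   (15, 17, 19), (17, 18, 19), (12, 17, 18), (13, 15, 17), (12, 13, 17), (3, 14, 16),
   (14, 15, 16), (13, 14, 15), (2, 3, 14), (2, 13, 14), (2, 12, 13), (2, 11, 12), (3, 11, 12),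
   (3, 9, 11), (2, 10, 11), (9, 10, 11), (8, 9, 10), (2, 7, 10), (7, 8, 10), (5, 8, 9),
   (3, 5, 9), (6, 7, 8), (5, 6, 8), (0, 2, 7), (0, 6, 7), (0, 4, 6), (4, 5, 6), (3, 4, 5),
   (0, 1, 4), (1, 3, 4), (1, 2, 3), (0, 1, 2)]

theorem e33_ck : ckP 24 e33L
    [(0, 3, 4, 1, 6, 5), (3, 2, 11, 12, 9, 10), (2, 15, 14, 13, 3, 16), (15, 12, 17, 13, 19, 18)]
    [11, 11, 6, 7] [] 5 = true := by decide +kernel

theorem c_AA_ba : CovS [11, 11] [7, 6] := covG e33_ck [0, 0] (by decide +kernel)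

theorem c_AAAB_O : CovS [11, 11, 11, 12] [] := covG e33_ck [0, 0, 1, 1] (by decide +kernel)

end Pool.Agent.Helper86.HC
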