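import Pool.Agent.Helper86.HC.Cov

/-!
# End pieces, part 5 (found by computer)
-/

namespace Pool.Agent.Helper86.HC

open Pool.Agent.Helper79.HH

/-! 12 | 9, hub 6 -/

def e5L : List Tr :=
  [(17, 18, 20), (15, 17, 20), (15, 16, 20), (18, 19, 20), (16, 19, 20), (1, 16, 19),
   (11, 18, 19), (1, 11, 19), (10, 17, 18), (10, 11, 18), (13, 15, 17), (10, 13, 17),
   (1, 14, 16), (14, 15, 16), (13, 14, 15), (1, 12, 14), (12, 13, 14), (10, 12, 13),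
   (1, 7, 12), (7, 10, 12), (9, 10, 11), (1, 9, 11), (8, 9, 10), (6, 7, 10), (6, 8, 10),
   (0, 8, 9), (0, 1, 9), (4, 6, 8), (0, 4, 8), (1, 5, 7), (5, 6, 7), (4, 5, 6), (1, 3, 5),
   (3, 4, 5), (0, 3, 4), (1, 2, 3), (0, 2, 3), (0, 1, 2)]

theorem e5_ck : ckP 21 e5L
    [(0, 1, 3, 2, 4, 5)]
    [12] [9] 6 = true := by decide +kernel

theorem c_B_d : CovS [12] [9] := covG e5_ck [0] (by decide +kernel)

/-! 6, 6 | 8, hub 5 -/

def e9L : List Tr :=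
  [(10, 11, 13), (9, 10, 13), (8, 9, 13), (11, 12, 13), (8, 12, 13), (6, 8, 12), (7, 11, 12),
   (6, 7, 12), (2, 10, 11), (2, 7, 11), (1, 9, 10), (1, 2, 10), (3, 8, 9), (1, 3, 9),
   (4, 6, 8), (3, 4, 8), (2, 5, 7), (5, 6, 7), (4, 5, 6), (0, 2, 5), (0, 4, 5), (0, 3, 4),
   (0, 1, 3), (0, 1, 2)]

theorem e9_ck : ckP 14 e9L
    [(0, 8, 4, 3, 5, 6), (8, 1, 9, 3, 13, 10)]
    [6, 6] [8] 5 = true := by decide +kernel

theorem c_O_caa : CovS [] [8, 6, 6] := covG e9_ck [] (by decide +kernel)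

theorem c_AA_c : CovS [11, 11] [8] := covG e9_ck [1, 1] (by decide +kernel)

/-! 7, 7, 12 | , hub 9 -/

def e13L : List Tr :=
  [(20, 21, 23), (18, 20, 23), (18, 19, 23), (21, 22, 23), (19, 22, 23), (0, 19, 22),
   (2, 21, 22), (0, 2, 22), (16, 20, 21), (2, 16, 21), (15, 18, 20), (15, 16, 20),
   (0, 17, 19), (17, 18, 19), (15, 17, 18), (0, 14, 17), (14, 15, 17), (12, 15, 16),
   (2, 12, 16), (13, 14, 15), (12, 13, 15), (0, 10, 14), (10, 13, 14), (10, 11, 13),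
   (11, 12, 13), (2, 11, 12), (9, 10, 11), (2, 9, 11), (8, 9, 10), (0, 6, 10), (6, 8, 10),
   (7, 8, 9), (2, 7, 9), (5, 6, 8), (5, 7, 8), (3, 5, 7), (2, 3, 7), (0, 4, 6), (4, 5, 6),
   (3, 4, 5), (0, 1, 4), (1, 3, 4), (1, 2, 3), (0, 1, 2)]

theorem e13_ck : ckP 24 e13L
    [(0, 15, 17, 14, 19, 18), (15, 10, 13, 14, 12, 11), (10, 2, 9, 11, 8, 7)]
    [7, 7, 12] [] 9 = true := by decide +kernel

theorem c_BBB_O : CovS [12, 12, 12] [] := covG e13_ck [1, 1, 0] (by decide +kernel)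

/-! 9, 9, 13 | , hub 10 -/

def e18L : List Tr :=
  [(26, 27, 29), (24, 26, 29), (24, 25, 29), (27, 28, 29), (25, 28, 29), (0, 25, 28),
   (2, 27, 28), (0, 2, 28), (18, 26, 27), (2, 18, 27), (22, 24, 26), (18, 22, 26),
   (0, 23, 25), (23, 24, 25), (22, 23, 24), (0, 21, 23), (21, 22, 23), (18, 21, 22),
   (0, 20, 21), (18, 20, 21), (0, 10, 20), (10, 19, 20), (18, 19, 20), (17, 18, 19),
   (10, 15, 19), (15, 17, 19), (16, 17, 18), (2, 16, 18), (14, 15, 17), (14, 16, 17),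
   (12, 14, 16), (2, 12, 16), (10, 13, 15), (13, 14, 15), (12, 13, 14), (10, 11, 13),
   (11, 12, 13), (2, 11, 12), (9, 10, 11), (2, 9, 11), (8, 9, 10), (0, 6, 10), (6, 8, 10),
   (7, 8, 9), (2, 7, 9), (5, 6, 8), (5, 7, 8), (3, 5, 7), (2, 3, 7), (0, 4, 6), (4, 5, 6),
   (3, 4, 5), (0, 1, 4), (1, 3, 4), (1, 2, 3), (0, 1, 2)]

theorem e18_ck : ckP 30 e18L
    [(0, 18, 21, 20, 23, 22), (18, 10, 19, 20, 17, 15), (10, 2, 9, 11, 8, 7)]
    [9, 9, 13] [] 10 = true := by decide +kernel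

theorem c_DDC_O : CovS [14, 14, 13] [] := covG e18_ck [1, 1, 0] (by decide +kernel)

/-! 7, 12, 6, 6 | , hub 3 -/

def e23L : List Tr :=
  [(14, 15, 17), (12, 14, 17), (12, 13, 17), (15, 16, 17), (13, 16, 17), (2, 13, 16),
   (7, 15, 16), (2, 7, 16), (9, 14, 15), (7, 9, 15), (10, 12, 14), (9, 10, 14), (2, 11, 13),
   (11, 12, 13), (10, 11, 12), (2, 5, 11), (5, 10, 11), (5, 8, 10), (8, 9, 10), (7, 8, 9),
   (5, 6, 8), (6, 7, 8), (2, 6, 7), (4, 5, 6), (2, 4, 6), (2, 3, 5), (3, 4, 5), (1, 3, 4),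
   (1, 2, 4), (0, 2, 3), (0, 1, 3), (0, 1, 2)]

theorem e23_ck : ckP 18 e23L
    [(0, 5, 3, 2, 1, 4), (5, 2, 6, 4, 8, 7), (2, 10, 11, 5, 13, 12), (10, 7, 9, 8, 14, 15)]
    [7, 12, 6, 6] [] 3 = true := by decide +kernel

theorem c_BB_aa : CovS [12, 12] [6, 6] := covG e23_ck [1, 0] (by decide +kernel)

theorem c_BBAA_O : CovS [12, 12, 11, 11] [] := covG e23_ck [1, 0, 1, 1] (by decide +kernel)

/-! 8, 9, 9, 9 | , hub 7 -/

def e25L : List Tr :=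
  [(22, 23, 25), (20, 22, 25), (20, 21, 25), (23, 24, 25), (21, 24, 25), (12, 21, 24),
   (8, 23, 24), (8, 12, 24), (10, 22, 23), (8, 10, 23), (18, 20, 22), (10, 18, 22),
   (12, 19, 21), (19, 20, 21), (18, 19, 20), (12, 17, 19), (17, 18, 19), (10, 17, 18),
   (12, 16, 17), (10, 16, 17), (10, 14, 16), (12, 15, 16), (14, 15, 16), (13, 14, 15),
   (11, 12, 15), (11, 13, 15), (0, 13, 14), (0, 10, 14), (2, 11, 13), (0, 2, 13), (8, 9, 12),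
   (9, 11, 12), (2, 9, 11), (0, 6, 10), (6, 8, 10), (7, 8, 9), (2, 7, 9), (5, 6, 8),
   (5, 7, 8), (3, 5, 7), (2, 3, 7), (0, 4, 6), (4, 5, 6), (3, 4, 5), (0, 1, 4), (1, 3, 4),
   (1, 2, 3), (0, 1, 2)]

theorem e25_ck : ckP 26 e25L
    [(0, 8, 6, 10, 4, 5), (8, 2, 7, 9, 5, 3), (2, 12, 11, 9, 13, 15), (12, 10, 16, 17, 15, 14)]
    [8, 9, 9, 9] [] 7 = true := by decide +kernel

theorem c_CD_dd : CovS [13, 14] [9, 9] := covG e25_ck [1, 1] (by decide +kernel)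

theorem c_CDDD_O : CovS [13, 14, 14, 14] [] := covG e25_ck [1, 1, 1, 1] (by decide +kernel)

/-! 11, 11, 7, 6 | , hub 8 -/

def e35L : List Tr :=
  [(23, 24, 26), (21, 23, 26), (21, 22, 26), (24, 25, 26), (22, 25, 26), (3, 22, 25),
   (14, 24, 25), (3, 14, 25), (13, 23, 24), (13, 14, 24), (19, 21, 23), (13, 19, 23),
   (3, 20, 22), (20, 21, 22), (19, 20, 21), (3, 18, 20), (18, 19, 20), (13, 18, 19),
   (3, 17, 18), (13, 17, 18), (3, 7, 17), (7, 16, 17), (13, 16, 17), (7, 11, 16),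
   (11, 15, 16), (13, 15, 16), (12, 13, 15), (10, 11, 15), (10, 12, 15), (4, 13, 14),
   (3, 4, 14), (0, 12, 13), (0, 4, 13), (8, 10, 12), (0, 8, 12), (7, 9, 11), (9, 10, 11),
   (8, 9, 10), (6, 7, 9), (6, 8, 9), (0, 6, 8), (3, 5, 7), (5, 6, 7), (0, 5, 6), (2, 3, 5),
   (0, 2, 5), (0, 1, 4), (1, 3, 4), (1, 2, 3), (0, 1, 2)]

theorem e35_ck : ckP 27 e35L
    [(0, 3, 4, 1, 13, 14), (3, 13, 18, 17, 20, 19), (13, 7, 16, 17, 15, 11), (7, 2, 5, 3, 6, 0)]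
    [11, 11, 7, 6] [] 8 = true := by decide +kernel

theorem c_AABA_O : CovS [11, 11, 12, 11] [] := covG e35_ck [0, 0, 1, 1] (by decide +kernel)

/-!  | 6, 6, 6, 6, 6, hub 5 -/

def e38L : List Tr :=
  [(10, 11, 13), (8, 10, 13), (8, 9, 13), (11, 12, 13), (9, 12, 13), (5, 9, 12), (6, 11, 12),
   (5, 6, 12), (3, 10, 11), (3, 6, 11), (4, 8, 10), (3, 4, 10), (5, 7, 9), (7, 8, 9),
   (4, 7, 8), (1, 5, 7), (1, 4, 7), (0, 3, 6), (0, 5, 6), (0, 1, 5), (1, 2, 4), (2, 3, 4),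
   (0, 2, 3), (0, 1, 2)]

theorem e38_ck : ckP 14 e38L
    []
    [] [6, 6, 6, 6, 6] 5 = true := by decide +kernel

theorem c_O_aaaaa : CovS [] [6, 6, 6, 6, 6] := covG e38_ck [] (by decide +kernel)

end Pool.Agent.Helper86.HC
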