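import Pool.Agent.Helper86.HC.Cov

/-!
# Two end pieces at a face with seven sides (found by computer)
-/

namespace Pool.Agent.Helper86.HC

open Pool.Agent.Helper79.HH

def s7aL : List Tr :=
  [(14, 15, 17), (12, 14, 17), (12, 13, 17), (15, 16, 17), (13, 16, 17), (7, 13, 16),
   (6, 15, 16), (6, 7, 16), (8, 14, 15), (6, 8, 15), (10, 12, 14), (8, 10, 14), (7, 11, 13),
   (11, 12, 13), (10, 11, 12), (7, 9, 11), (9, 10, 11), (8, 9, 10), (3, 7, 9), (3, 8, 9),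
   (3, 5, 8), (5, 6, 8), (4, 6, 7), (3, 4, 7), (2, 5, 6), (2, 4, 6), (1, 3, 5), (1, 2, 5),
   (0, 2, 4), (0, 3, 4), (0, 1, 3), (0, 1, 2)]

theorem s7a_ck : ckP 18 s7aL
    []
    [] [7, 7, 7, 7, 7] 4 = true := by decide +kernel

def s7bL : List Tr :=
  [(9, 10, 12), (7, 9, 12), (7, 8, 12), (10, 11, 12), (8, 11, 12), (4, 8, 11), (2, 10, 11),
   (2, 4, 11), (1, 9, 10), (1, 2, 10), (5, 7, 9), (1, 5, 9), (4, 6, 8), (6, 7, 8), (5, 6, 7),
   (3, 4, 6), (3, 5, 6), (1, 3, 5), (0, 2, 4), (0, 3, 4), (0, 1, 3), (0, 1, 2)]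

theorem s7b_ck : ckP 13 s7bL
    []
    [] [7, 7, 6] 4 = true := by decide +kernel

end Pool.Agent.Helper86.HC
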