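import Pool.Agent.Helper86.HC.Path

/-!
# Literal end pieces with a path of slots
-/

namespace Pool.Agent.Helper86.HC

open Finset Pool.Agent.Helper79.HX Pool.Agent.Helper79.HG Pool.Agent.Helper79.HH

/-- a slot: `D, b, p, x1, x2, x3` -/
abbrev PS : Type := ℕ × ℕ × ℕ × ℕ × ℕ × ℕ

def toS (s : PS) : ℕ × ℕ × ℕ := (s.1, s.2.1, s.2.2.1)

def ps1 (L : List Tr) (s : PS) : Bool :=
  Nat.beq (dg L s.2.2.1) 5 && mem3 L s.2.2.1 s.1 s.2.2.2.1 && mem3 L s.2.2.1 s.2.2.2.1 s.2.1 &&
    mem3 L s.2.2.1 s.2.1 s.2.2.2.2.2 && mem3 L s.2.2.1 s.2.2.2.2.2 s.2.2.2.2.1 &&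
    mem3 L s.2.2.1 s.2.2.2.2.1 s.1 &&
    decide ([s.1, s.2.1, s.2.2.1, s.2.2.2.1, s.2.2.2.2.1, s.2.2.2.2.2].Nodup)

def ppw2 (L : List Tr) (s t : PS) : Bool :=
  !(Nat.beq s.2.2.1 t.1) && !(Nat.beq s.2.2.1 t.2.1) && !(Nat.beq t.2.2.1 s.1) &&
    !(Nat.beq t.2.2.1 s.2.1) && !(L.any (fun x => has s.2.2.1 x && has t.2.2.1 x))

def ppwB (L : List Tr) : List PS → Bool
  | [] => true
  | s :: M => M.all (ppw2 L s) && ppwB L M

def psB (L : List Tr) (l : List PS) : Bool := l.all (ps1 L) && ppwB L l

theorem psB_slots {L : List Tr} (hB : Bas L) (l : List PS) (h : psB L l = true) :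
    PSlots (TT L) (l.map toS) := by
  rw [psB, Bool.and_eq_true, List.all_eq_true] at h
  constructor
  · intro x hx
    obtain ⟨s, hs, rfl⟩ := List.mem_map.1 hx
    have h1 := h.1 s hs
    simp only [ps1, Bool.and_eq_true, decide_eq_true_eq] at h1
    obtain ⟨⟨⟨⟨⟨⟨k0, k1⟩, k2⟩, k3⟩, k4⟩, k5⟩, k6⟩ := h1
    refine ⟨s.2.2.2.1, s.2.2.2.2.1, s.2.2.2.2.2, ?_, mem3_mem hB k1, mem3_mem hB k2,
      mem3_mem hB k3, mem3_mem hB k4, mem3_mem hB k5, k6⟩
    show deg (TT L) s.2.2.1 = 5
    rw [deg_TT hB]
    simpa using k0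
  · have h2 := h.2
    clear h
    induction l with
    | nil => exact List.Pairwise.nil
    | cons s M ih =>
      rw [ppwB, Bool.and_eq_true, List.all_eq_true] at h2
      rw [List.map_cons, List.pairwise_cons]
      refine ⟨?_, ih h2.2⟩
      intro x hx
      obtain ⟨t, ht, rfl⟩ := List.mem_map.1 hx
      have h3 := h2.1 t ht
      simp only [ppw2, Bool.and_eq_true, Bool.not_eq_true'] at h3
      obtain ⟨⟨⟨⟨k1, k2⟩, k3⟩, k4⟩, k5⟩ := h3
      refine ⟨ne_of_nbeq k1, ne_of_nbeq k2, ne_of_nbeq k3, ne_of_nbeq k4, ?_⟩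
      rintro t' ht' ⟨h5, h6⟩
      obtain ⟨y, hy, rfl⟩ := mem_TT.1 ht'
      have : L.any (fun x => has s.2.2.1 x && has t.2.2.1 x) = true :=
        List.any_eq_true.2 ⟨y, hy, by rw [Bool.and_eq_true, has_iff, has_iff]; exact ⟨h5, h6⟩⟩
      rw [this] at k5
      exact absurd k5 (by simp)

/-- the degree of `v` in the completed end piece -/
def fin (L : List Tr) (v : ℕ) : ℕ :=
  dg L v + bif Nat.beq v 1 then 1 else bif Nat.beq v 2 then 2 else 0

/-- consecutive slots share a vertex -/
def isP : ℕ → List PS → Bool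
  | _, [] => true
  | u, s :: l => Nat.beq s.1 u && isP s.2.1 l

/-- all the conditions for an end piece with a path of slots; `Z`: the other large faces -/
def ckP (N : ℕ) (L : List Tr) (l : List PS) (S Z : List ℕ) (g0 : ℕ) : Bool :=
  chk N L && psB L l && mem3 L 0 1 2 && l.all (fun s => Nat.blt 2 s.2.2.1) &&
    ((((List.range N).filter (fun v => !(Nat.beq v 0 || l.any (fun s => Nat.beq v s.2.1)))).map
      (fin L)).filter (fun d => !(Nat.beq d 5))).isPerm Z &&
    decide (l.map (fun s => fin L s.2.1) = S) && Nat.beq (dg L 0) g0 && isP 0 l &&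
    decide ((0 :: l.map (fun s => s.2.1)).Nodup)

theorem lit_core {N : ℕ} {L : List Tr} {l : List PS} {S Z : List ℕ} {g0 : ℕ}
    (h : ckP N L l S Z g0 = true) (k : ℕ → ℕ) :
    CoreG (g0 + 5 * inc k (l.map toS) 0)
      ((l.map (fun s => fin L s.2.1 + 5 * inc k (l.map toS) s.2.1) ++ Z : List ℕ) :
        Multiset ℕ) 0 := by
  simp only [ckP, Bool.and_eq_true, decide_eq_true_eq] at h
  obtain ⟨⟨⟨⟨⟨⟨⟨⟨h1, h2⟩, h3⟩, h4⟩, h5⟩, -⟩, h7⟩, h8⟩, h9⟩ := h
  have hbas := chk_bas h1
  have hV := chk_verts h1
  have hsl := psB_slots hbas l h2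
  have hT := mem3_mem hbas h3
  have hconf := pgrow (chk_sphere h1) hsl hT (by
    intro x hx
    obtain ⟨s, hs, rfl⟩ := List.mem_map.1 hx
    have := List.all_eq_true.1 h4 s hs
    simp only [Nat.blt_eq] at this
    simp only [toS, Finset.mem_insert, Finset.mem_singleton]
    omega) k
  obtain ⟨ic, hic⟩ : ∃ ic, ic = inc k (l.map toS) := ⟨_, rfl⟩
  rw [← hic] at hconf ⊢
  rw [deg_TT hbas, deg_TT hbas, deg_TT hbas, Nat.eq_of_beq_eq_true h7] at hconf
  obtain ⟨R, hR⟩ : ∃ R, R = 10 * ((l.map toS).map (fun x => k x.2.2)).sum := ⟨_, rfl⟩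
  rw [← hR] at hconf
  have hv : ∀ v ∈ ({0, 1, 2} : Finset ℕ), v ∈ verts (TT L) := fun v hv => mem_verts.2 ⟨_, hT, hv⟩
  have hbV : ∀ s ∈ l, s.2.1 ∈ verts (TT L) := by
    intro s hs
    obtain ⟨x1, x2, x3, hx⟩ := hsl.slot (toS s) (List.mem_map_of_mem hs)
    exact mem_verts.2 ⟨_, hx.m2, by simp [toS]⟩
  rw [List.nodup_cons] at h9
  -- the vertices except the hub
  set B : Finset ℕ := (l.map (fun s => s.2.1)).toFinset with hB
  set A : Finset ℕ := (verts (TT L) \ {0}).filter (fun v => v ∉ B) with hA
  have hAB : Disjoint A B := by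
    rw [Finset.disjoint_left]
    intro v hv1 hv2
    exact (Finset.mem_filter.1 hv1).2 hv2
  have hU : verts (TT L) \ {0} = A.disjUnion B hAB := by
    rw [Finset.disjUnion_eq_union]
    ext v
    rw [Finset.mem_union, hA, Finset.mem_filter]
    constructor
    · intro hv1
      by_cases hv2 : v ∈ B
      · exact Or.inr hv2
      · exact Or.inl ⟨hv1, hv2⟩
    · rintro (hv1 | hv1)
      · exact hv1.1
      · rw [hB, List.mem_toFinset] at hv1
        obtain ⟨s, hs, rfl⟩ := List.mem_map.1 hv1
        refine Finset.mem_sdiff.2 ⟨hbV s hs, fun h0 => ?_⟩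
        rw [Finset.mem_singleton] at h0
        exact h9.1 (by rw [← h0]; exact hv1)
  have hic0 : ∀ v, v ≠ 0 → v ∉ B → ic v = 0 := by
    intro v hv0 hvB
    rw [hic]
    have hD : ∀ (u : ℕ) (l' : List PS), isP u l' = true →
        ∀ s ∈ l', s.1 = u ∨ s.1 ∈ l'.map (fun s => s.2.1) := by
      intro u l'
      induction l' generalizing u with
      | nil => intro _ s hs; simp at hs
      | cons x l' ih =>
        intro hP s hs
        rw [isP, Bool.and_eq_true] at hP
        rcases List.mem_cons.1 hs with rfl | hs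
        · exact Or.inl (Nat.eq_of_beq_eq_true hP.1)
        · rcases ih _ hP.2 s hs with h | h
          · exact Or.inr (by rw [h]; simp)
          · exact Or.inr (by rw [List.map_cons]; exact List.mem_cons_of_mem _ h)
    apply inc_eq_zero
    intro x hx
    obtain ⟨s, hs, rfl⟩ := List.mem_map.1 hx
    refine ⟨fun h => ?_, fun h => ?_⟩
    · rcases hD 0 l h8 s hs with h' | h'
      · exact hv0 (h.trans h')
      · exact hvB (by rw [hB, List.mem_toFinset]; exact h ▸ h')
    · exact hvB (by rw [hB, List.mem_toFinset]; exact h ▸ List.mem_map_of_mem hs)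
  obtain ⟨M, hM⟩ : ∃ M, M = ((List.range N).filter
      (fun v => !(Nat.beq v 0 || l.any (fun s => Nat.beq v s.2.1)))).map (fin L) := ⟨_, rfl⟩
  rw [← hM] at h5
  refine core_of (h := 0) hconf (R + (M.filter (fun d => Nat.beq d 5)).length) ?_
  -- put the marked vertices back
  have e1 : ((dg L 1 + 5 * ic 1) + 1) ::ₘ ((dg L 2 + 5 * ic 2) + 2) ::ₘ
      (verts (TT L) \ {0, 1, 2}).val.map (fun v => deg (TT L) v + 5 * ic v) =
      (verts (TT L) \ {0}).val.map (fun v => fin L v + 5 * ic v) := by
    have e2 : verts (TT L) \ {0} = insert 1 (insert 2 (verts (TT L) \ {0, 1, 2})) := by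
      ext v
      simp only [Finset.mem_sdiff, Finset.mem_insert, Finset.mem_singleton, not_or]
      constructor
      · rintro ⟨a1, a2⟩
        by_cases v1 : v = 1
        · exact Or.inl v1
        · by_cases v2 : v = 2
          · exact Or.inr (Or.inl v2)
          · exact Or.inr (Or.inr ⟨a1, a2, v1, v2⟩)
      · rintro (rfl | rfl | ⟨a1, a2, -, -⟩)
        · exact ⟨hv 1 (by simp), by norm_num⟩
        · exact ⟨hv 2 (by simp), by norm_num⟩
        · exact ⟨a1, a2⟩
    rw [e2, Finset.insert_val_of_notMem (by simp), Finset.insert_val_of_notMem (by simp),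
      Multiset.map_cons, Multiset.map_cons]
    congr 1
    · show dg L 1 + 5 * ic 1 + 1 = (dg L 1 + 1) + 5 * ic 1
      ring
    · congr 1
      · show dg L 2 + 5 * ic 2 + 2 = (dg L 2 + 2) + 5 * ic 2
        ring
      · refine Multiset.map_congr rfl fun v hv' => ?_
        have hv'' : v ∈ verts (TT L) \ {0, 1, 2} := hv'
        simp only [Finset.mem_sdiff, Finset.mem_insert, Finset.mem_singleton, not_or] at hv''
        have b1 : Nat.beq v 1 = false := by
          rw [← Bool.not_eq_true]
          exact fun hh => hv''.2.2.1 (Nat.eq_of_beq_eq_true hh)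
        have b2 : Nat.beq v 2 = false := by
          rw [← Bool.not_eq_true]
          exact fun hh => hv''.2.2.2 (Nat.eq_of_beq_eq_true hh)
        rw [deg_TT hbas, fin, b1, b2]
        rfl
  have e4 : A.val.map (fun v => fin L v + 5 * ic v) = (M : Multiset ℕ) := by
    have e5 : A.val.map (fun v => fin L v + 5 * ic v) = A.val.map (fin L) := by
      refine Multiset.map_congr rfl fun v hv' => ?_
      have hvA : v ∈ A := hv'
      rw [hA, Finset.mem_filter, Finset.mem_sdiff, Finset.mem_singleton] at hvA
      rw [hic0 v hvA.1.2 hvA.2, mul_zero, add_zero]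
    have e6 : A = (range N).filter
        (fun v => (!(Nat.beq v 0 || l.any (fun s => Nat.beq v s.2.1))) = true) := by
      rw [hA, hV]
      ext v
      simp only [Finset.mem_sdiff, Finset.mem_singleton, Finset.mem_filter, Bool.not_eq_true',
        ← Bool.not_eq_true, Bool.or_eq_true, not_or, Nat.beq_eq, hB, List.mem_toFinset,
        List.mem_map, List.any_eq_true, not_exists, not_and, and_assoc]
      refine and_congr_right fun _ => and_congr_right fun _ => forall_congr' fun x =>
        imp_congr_right fun _ => not_congr ⟨fun h => h.symm, fun h => h.symm⟩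
    rw [e5, e6, Finset.filter_val, Finset.range_val]
    have e7 : Multiset.range N = (List.range N : Multiset ℕ) := rfl
    rw [e7, Multiset.filter_coe, Multiset.map_coe, hM]
    simp
  have e3 : (verts (TT L) \ {0}).val.map (fun v => fin L v + 5 * ic v) =
      Multiset.replicate (M.filter (fun d => Nat.beq d 5)).length 5 +
        ((l.map (fun s => fin L s.2.1 + 5 * ic s.2.1) ++ Z : List ℕ) : Multiset ℕ) := by
    rw [hU, Finset.disjUnion_val, Multiset.map_add, e4]
    have e8 : (M : Multiset ℕ) = ((M.filter (fun d => Nat.beq d 5) : List ℕ) : Multiset ℕ) +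
        ((M.filter (fun d => !(Nat.beq d 5)) : List ℕ) : Multiset ℕ) := by
      rw [Multiset.coe_add, Multiset.coe_eq_coe]
      exact (List.filter_append_perm (fun d => Nat.beq d 5) M).symm
    have e9 : ((M.filter (fun d => Nat.beq d 5) : List ℕ) : Multiset ℕ) =
        Multiset.replicate (M.filter (fun d => Nat.beq d 5)).length 5 := by
      rw [Multiset.eq_replicate]
      refine ⟨by simp, fun b hb => ?_⟩
      rw [Multiset.mem_coe, List.mem_filter] at hb
      exact Nat.eq_of_beq_eq_true hb.2
    have e10 : ((M.filter (fun d => !(Nat.beq d 5)) : List ℕ) : Multiset ℕ) = (Z : Multiset ℕ) :=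
      Multiset.coe_eq_coe.2 (List.isPerm_iff.1 h5)
    have e11 : B.val.map (fun v => fin L v + 5 * ic v) =
        ((l.map (fun s => fin L s.2.1 + 5 * ic s.2.1) : List ℕ) : Multiset ℕ) := by
      rw [hB, List.toFinset_val, h9.2.dedup, Multiset.map_coe, List.map_map]
      rfl
    rw [e8, e9, e10, e11, ← Multiset.coe_add, add_assoc, add_comm (Z : Multiset ℕ)]
  rw [Multiset.replicate_zero, add_zero, Multiset.replicate_add,
    add_assoc (Multiset.replicate R 5), ← e3, ← e1]
  simp only [← Multiset.singleton_add]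
  abel

/-- alternating sums -/
def alt : List ℕ → ℕ
  | [] => 0
  | a :: t => a - alt t

/-- all the alternating sums of the final segments are nonnegative -/
def Ok : List ℕ → Prop
  | [] => True
  | a :: t => alt t ≤ a ∧ Ok t

theorem ok_of_sorted : ∀ t : List ℕ, t.Pairwise (· ≥ ·) → Ok t := by
  intro t
  induction t with
  | nil => intro _; trivial
  | cons a t ih =>
    intro h
    rw [List.pairwise_cons] at h
    refine ⟨?_, ih h.2⟩
    cases t with
    | nil => exact Nat.zero_le _
    | cons b t =>
      have := h.1 b (by simp)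
      show b - alt t ≤ a
      omega

theorem path_inc : ∀ (l : List PS) (u : ℕ) (t : List ℕ) (k : ℕ → ℕ), isP u l = true →
    (u :: l.map (fun s => s.2.1)).Nodup → t.length = l.length → Ok t →
    (∀ j < l.length, l[j]?.map (fun s => k s.2.2.1) = some (alt (t.drop j))) →
    inc k (l.map toS) u = alt t ∧ l.map (fun s => inc k (l.map toS) s.2.1) = t := by
  intro l
  induction l with
  | nil =>
    intro u t k _ _ ht _ _
    have : t = [] := List.length_eq_zero_iff.1 ht
    subst this
    exact ⟨rfl, rfl⟩
  | cons s l ih =>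
    intro u t k hP hnd ht hok hk
    cases t with
    | nil => simp at ht
    | cons a t =>
      rw [isP, Bool.and_eq_true] at hP
      have hsu : s.1 = u := Nat.eq_of_beq_eq_true hP.1
      rw [List.map_cons, List.nodup_cons] at hnd
      have ht' : t.length = l.length := by simpa using ht
      have hk' : ∀ j < l.length, l[j]?.map (fun s => k s.2.2.1) = some (alt (t.drop j)) := by
        intro j hj
        have := hk (j + 1) (by simpa using hj)
        simpa using this
      obtain ⟨i1, i2⟩ := ih s.2.1 t k hP.2 hnd.2 ht' hok.2 hk'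
      have hk0 : k s.2.2.1 = alt (a :: t) := by
        have := hk 0 (by simp)
        simpa using this
      -- the vertex `u` does not occur later
      have hu : inc k (l.map toS) u = 0 := by
        apply inc_eq_zero
        have hD : ∀ (u' : ℕ) (l' : List PS), isP u' l' = true →
            ∀ s ∈ l', s.1 = u' ∨ s.1 ∈ l'.map (fun s => s.2.1) := by
          intro u' l'
          induction l' generalizing u' with
          | nil => intro _ s hs; simp at hs
          | cons x l' ih =>
            intro hP s hs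
            rw [isP, Bool.and_eq_true] at hP
            rcases List.mem_cons.1 hs with rfl | hs
            · exact Or.inl (Nat.eq_of_beq_eq_true hP.1)
            · rcases ih _ hP.2 s hs with h | h
              · exact Or.inr (by rw [h]; simp)
              · exact Or.inr (by rw [List.map_cons]; exact List.mem_cons_of_mem _ h)
        intro x hx
        obtain ⟨s', hs', rfl⟩ := List.mem_map.1 hx
        refine ⟨fun h => ?_, fun h => ?_⟩
        · rcases hD s.2.1 l hP.2 s' hs' with h' | h'
          · exact hnd.1 (by rw [h, show (toS s').1 = s'.1 from rfl, h']; simp)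
          · exact hnd.1 (by
              rw [h, show (toS s').1 = s'.1 from rfl]
              exact List.mem_cons_of_mem _ h')
        · exact hnd.1 (List.mem_cons_of_mem _ (by
            rw [h]
            exact List.mem_map.2 ⟨s', hs', rfl⟩))
      have hn := (List.nodup_cons.1 hnd.2)
      constructor
      · have c1 : u = (toS s).1 ∨ u = (toS s).2.1 := Or.inl hsu.symm
        rw [List.map_cons, inc_cons, hu, if_pos c1, add_zero]
        exact hk0
      · rw [List.map_cons, List.map_cons]
        congr 1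
        · have c2 : s.2.1 = (toS s).1 ∨ s.2.1 = (toS s).2.1 := Or.inr rfl
          rw [inc_cons, if_pos c2, i1]
          show k s.2.2.1 + alt t = a
          rw [hk0]
          show a - alt t + alt t = a
          exact Nat.sub_add_cancel hok.1
        · have e : l.map (fun x => inc k (toS s :: l.map toS) x.2.1) =
              l.map (fun x => inc k (l.map toS) x.2.1) := by
            apply List.map_congr_left
            intro x hx
            rw [inc_cons, if_neg, zero_add]
            have hx' : x.2.1 ∈ l.map (fun s => s.2.1) := List.mem_map.2 ⟨x, hx, rfl⟩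
            rintro (h | h)
            · apply hnd.1
              rw [← hsu]
              have : x.2.1 = s.1 := h
              rw [← this]
              exact List.mem_cons_of_mem _ hx'
            · have : x.2.1 = s.2.1 := h
              exact hn.1 (by rw [← this]; exact hx')
          rw [e]
          exact i2

/-- a function with prescribed values -/
theorem exists_vals : ∀ (l : List PS) (ks : List ℕ), l.Pairwise (fun s t => s.2.2.1 ≠ t.2.2.1) →
    ks.length = l.length →
    ∃ k : ℕ → ℕ, ∀ j < l.length, l[j]?.map (fun s => k s.2.2.1) = ks[j]? := by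
  intro l
  induction l with
  | nil => intro ks _ _; exact ⟨fun _ => 0, fun j hj => absurd hj (by simp)⟩
  | cons s l ih =>
    intro ks h hks
    cases ks with
    | nil => simp at hks
    | cons a ks =>
      rw [List.pairwise_cons] at h
      obtain ⟨k, hk⟩ := ih ks h.2 (by simpa using hks)
      refine ⟨Function.update k s.2.2.1 a, ?_⟩
      intro j hj
      cases j with
      | zero => simp
      | succ j =>
        have h1 := hk j (by simpa using hj)
        rw [List.getElem?_cons_succ, List.getElem?_cons_succ, ← h1]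
        have hj' : j < l.length := by simpa using hj
        rw [List.getElem?_eq_getElem hj', Option.map_some, Option.map_some]
        congr 1
        rw [Function.update_of_ne]
        exact (h.1 _ (List.getElem_mem hj')).symm

theorem ppw_ne {L : List Tr} {l : List PS} (h : psB L l = true) :
    l.Pairwise (fun s t => s.2.2.1 ≠ t.2.2.1) := by
  rw [psB, Bool.and_eq_true, List.all_eq_true] at h
  obtain ⟨h1, h2⟩ := h
  induction l with
  | nil => exact List.Pairwise.nil
  | cons s M ih =>
    rw [ppwB, Bool.and_eq_true, List.all_eq_true] at h2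
    rw [List.pairwise_cons]
    refine ⟨?_, ih (fun x hx => h1 x (List.mem_cons_of_mem _ hx)) h2.2⟩
    intro t ht heq
    have h3 := h2.1 t ht
    have h4 := h1 s (by simp)
    simp only [ppw2, Bool.and_eq_true, Bool.not_eq_true'] at h3
    simp only [ps1, Bool.and_eq_true, mem3, List.any_eq_true] at h4
    obtain ⟨⟨⟨⟨⟨⟨k0, ⟨k1, x, hx, ⟨⟨hx1, -⟩, -⟩⟩⟩, -⟩, -⟩, -⟩, -⟩, -⟩ := h4
    have : L.any (fun x => has s.2.2.1 x && has t.2.2.1 x) = true :=
      List.any_eq_true.2 ⟨x, hx, by rw [← heq, hx1]; rfl⟩
    rw [this] at h3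
    exact absurd h3.2 (by simp)

theorem zip_lem (L : List Tr) (F : ℕ → ℕ) (l : List PS) :
    List.zipWith (fun s t => s + 5 * t) (l.map (fun s => fin L s.2.1))
      (l.map (fun s => F s.2.1)) = l.map (fun s => fin L s.2.1 + 5 * F s.2.1) := by
  induction l with
  | nil => rfl
  | cons s l ih => simp only [List.map_cons, List.zipWith_cons_cons, ih]

/-- **A literal end piece gives the whole family.** -/
theorem path_core {N : ℕ} {L : List Tr} {l : List PS} {S Z : List ℕ} {g0 : ℕ}
    (h : ckP N L l S Z g0 = true) (t : List ℕ) (ht : t.length = S.length) (hok : Ok t) :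
    CoreG (g0 + 5 * alt t)
      ((List.zipWith (fun s t => s + 5 * t) S t ++ Z : List ℕ) : Multiset ℕ) 0 := by
  have h' := h
  simp only [ckP, Bool.and_eq_true, decide_eq_true_eq] at h'
  obtain ⟨⟨⟨⟨⟨⟨⟨⟨h1, h2⟩, -⟩, -⟩, -⟩, h6⟩, -⟩, h8⟩, h9⟩ := h'
  have hl : t.length = l.length := by rw [ht, ← h6, List.length_map]
  obtain ⟨k, hk⟩ := exists_vals l ((List.range t.length).map (fun j => alt (t.drop j)))
    (ppw_ne h2) (by simp [hl])
  have hk' : ∀ j < l.length, l[j]?.map (fun s => k s.2.2.1) = some (alt (t.drop j)) := by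
    intro j hj
    rw [hk j hj, List.getElem?_map, List.getElem?_range (by omega)]
    rfl
  obtain ⟨i1, i2⟩ := path_inc l 0 t k h8 h9 hl hok hk'
  have h3 := lit_core h k
  rw [i1] at h3
  rw [← zip_lem L (inc k (l.map toS)) l, i2, h6] at h3
  exact h3

end Pool.Agent.Helper86.HC
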