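import Pool.Agent.Helper86.HC.Sel

/-!
# Twelve faces with at least six sides and sizes not divisible by five
-/

namespace Pool.Agent.Helper86.HC

open Finset Pool.Agent.Helper79.HX Pool.Agent.Helper79.HG Pool.Agent.Helper79.HH

/-- the sorted list version: the second face has at least eight sides -/
theorem eight {D1 D2 : ℕ} {r : List ℕ} (hs : (D1 :: D2 :: r).Pairwise (· ≥ ·)) (h8 : 8 ≤ D2)
    (h6 : ∀ x ∈ r, 6 ≤ x) (h : 10 ≤ (r.filter (fun x => !(decide (5 ∣ x)))).length) :
    Good (D1 ::ₘ D2 ::ₘ (r : Multiset ℕ)) 0 := by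
  obtain ⟨U, hU⟩ : ∃ U, U = r.filter (fun x => !(decide (5 ∣ x))) := ⟨_, rfl⟩
  rw [← hU] at h
  rw [List.pairwise_cons, List.pairwise_cons] at hs
  have hUr : U.Sublist r := by rw [hU]; exact List.filter_sublist
  have hUs : U.Pairwise (· ≥ ·) := hs.2.2.sublist hUr
  have hU6 : ∀ x ∈ U, 6 ≤ x ∧ ¬ 5 ∣ x := by
    intro x hx
    refine ⟨h6 x (hUr.subset hx), ?_⟩
    rw [hU, List.mem_filter] at hx
    simpa using hx.2
  have hUD : ∀ x ∈ U, x ≤ D2 := fun x hx => hs.2.1 x (hUr.subset hx)
  have t1 : (U.take 5).Sublist U := List.take_sublist _ _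
  have t2 : ((U.drop 5).take 5).Sublist U := (List.take_sublist _ _).trans (List.drop_sublist _ _)
  obtain ⟨u1, hu1, g1, a1, b1, c1⟩ := core_of_five (l := U.take 5)
    (by rw [List.length_take]; omega) (fun x hx => hU6 x (t1.subset hx)) (hUs.sublist t1) h8
    (fun x hx => hUD x (t1.subset hx))
  obtain ⟨u2, hu2, g2, a2, b2, c2⟩ := core_of_five (l := (U.drop 5).take 5)
    (by rw [List.length_take, List.length_drop]; omega) (fun x hx => hU6 x (t2.subset hx))
    (hUs.sublist t2) h8 (fun x hx => hUD x (t2.subset hx))
  have hle : u1 + u2 ≤ (r : Multiset ℕ) := by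
    refine (add_le_add hu1 hu2).trans ?_
    rw [Multiset.coe_add, Multiset.coe_le]
    have h1 : (U.take 5 ++ (U.drop 5).take 5).Sublist (U.take 5 ++ U.drop 5) :=
      (List.Sublist.refl _).append (List.take_sublist _ _)
    rw [List.take_append_drop] at h1
    exact (h1.trans hUr).subperm
  obtain ⟨L, hL⟩ := Multiset.le_iff_exists_add.1 hle
  have hD : D2 ≤ D1 := hs.1 D2 (by simp)
  have h4 := two (D1 := D1) (D2 := D2) (k := 0) (L := L) c1 c2 a2 (by omega) b2 (by
    intro c hc
    refine h6 c ?_
    rw [← Multiset.mem_coe, hL]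
    exact Multiset.mem_add.2 (Or.inr hc))
  rw [hL]
  exact h4

/-- **Twelve faces.** -/
theorem many {X : Multiset ℕ} {n : ℕ} (h7 : ∀ a ∈ X, 7 ≤ a) (hn : n ≤ 5)
    (h : 12 ≤ n + (X.filter (fun a => ¬ 5 ∣ a)).card) : Good X n := by
  apply good_of_six
  obtain ⟨Y, hY⟩ : ∃ Y, Y = X + Multiset.replicate n 6 := ⟨_, rfl⟩
  rw [← hY]
  have hX7 : 7 ≤ X.card := by
    have := Multiset.card_le_card (Multiset.filter_le (fun a => ¬ 5 ∣ a) X)
    omega
  have hY6 : ∀ a ∈ Y, 6 ≤ a := by
    intro a ha
    rw [hY] at ha
    rcases Multiset.mem_add.1 ha with ha | ha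
    · have := h7 a ha
      omega
    · rw [Multiset.eq_of_mem_replicate ha]
  have hYU : 12 ≤ (Y.filter (fun a => ¬ 5 ∣ a)).card := by
    rw [hY, Multiset.filter_add, Multiset.card_add]
    have : (Multiset.replicate n 6).filter (fun a => ¬ 5 ∣ a) = Multiset.replicate n 6 := by
      rw [Multiset.filter_eq_self]
      intro a ha
      rw [Multiset.eq_of_mem_replicate ha]
      norm_num
    rw [this, Multiset.card_replicate]
    omega
  have hY7 : (Y.filter (fun a => 7 ≤ a)).card = X.card := by
    rw [hY, Multiset.filter_add, Multiset.card_add, Multiset.filter_eq_self.2 h7]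
    have : (Multiset.replicate n 6).filter (fun a => 7 ≤ a) = 0 := by
      rw [Multiset.filter_eq_nil]
      intro a ha
      rw [Multiset.eq_of_mem_replicate ha]
      norm_num
    rw [this, Multiset.card_zero, add_zero]
  have hYn : (Y.filter (fun a => ¬ 7 ≤ a)).card ≤ n := by
    rw [hY, Multiset.filter_add, Multiset.card_add]
    have h1 : X.filter (fun a => ¬ 7 ≤ a) = 0 := by
      rw [Multiset.filter_eq_nil]
      intro a ha h
      exact h (h7 a ha)
    have h2 := Multiset.card_le_card (Multiset.filter_le (fun a => ¬ 7 ≤ a)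
      (Multiset.replicate n 6))
    rw [Multiset.card_replicate] at h2
    rw [h1, Multiset.card_zero]
    omega
  obtain ⟨l, hl⟩ : ∃ l, l = Y.sort (· ≥ ·) := ⟨_, rfl⟩
  have hlY : (l : Multiset ℕ) = Y := by rw [hl, Multiset.sort_eq]
  have hls : l.Pairwise (· ≥ ·) := by rw [hl]; exact Multiset.pairwise_sort _ _
  rw [← hlY] at hYU hY7 hYn hY6 ⊢
  clear hl hlY hY
  rw [Multiset.filter_coe, Multiset.coe_card] at hYU hY7 hYn
  match l, hls, hYU, hY7, hYn, hY6 with
  | [], _, h, _, _, _ => simp at h
  | [a], _, h, _, _, _ =>
    have := List.length_filter_le (fun a => decide ¬ 5 ∣ a) [a]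
    simp only [List.length_singleton] at this
    omega
  | D1 :: D2 :: r, hls, hU, h7', hn', h6 =>
    have hs := hls
    rw [List.pairwise_cons, List.pairwise_cons] at hs
    have h6' : ∀ x ∈ r, 6 ≤ x := fun x hx => h6 x (by
      rw [Multiset.mem_coe]
      exact List.mem_cons_of_mem _ (List.mem_cons_of_mem _ hx))
    have hr : 10 ≤ (r.filter (fun x => !(decide (5 ∣ x)))).length := by
      have e1 : (r.filter (fun x => !(decide (5 ∣ x)))) = r.filter (fun x => decide (¬ 5 ∣ x)) := by
        congr 1
        ext x
        simp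
      rw [e1]
      rw [List.filter_cons, List.filter_cons] at hU
      split_ifs at hU <;> (try simp only [List.length_cons] at hU) <;> omega
    have hD2 : 7 ≤ D2 := by
      by_contra hc
      have e2 : (D2 :: r).filter (fun x => decide (7 ≤ x)) = [] := by
        rw [List.filter_eq_nil_iff]
        intro x hx
        rw [decide_eq_true_eq]
        rcases List.mem_cons.1 hx with rfl | hx
        · exact hc
        · have := hs.2.1 x hx
          omega
      rw [List.filter_cons, e2] at h7'
      split_ifs at h7' <;> simp only [List.length_cons, List.length_nil] at h7' <;> omega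
    rcases Nat.lt_or_ge D2 8 with h8 | h8
    · have hD : D2 = 7 := by omega
      subst hD
      have hD1 : 7 ≤ D1 := hs.1 7 (by simp)
      have e3 : (r : Multiset ℕ) = Multiset.replicate (r.count 7) 7 +
          Multiset.replicate (r.count 6) 6 := by
        ext j
        rw [Multiset.coe_count, Multiset.count_add, Multiset.count_replicate,
          Multiset.count_replicate]
        by_cases hj : j ∈ r
        · have a1 := h6' j hj
          have a2 := hs.2.1 j hj
          have : j = 7 ∨ j = 6 := by omega
          rcases this with rfl | rfl <;> simp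
        · rw [List.count_eq_zero_of_not_mem hj]
          split_ifs with j1 j2 j2 <;> subst_vars <;>
            simp_all [List.count_eq_zero_of_not_mem]
      have e4 : r.length = r.count 7 + r.count 6 := by
        have := congrArg Multiset.card e3
        simpa using this
      have e5 : r.count 6 ≤ 5 := by
        have e6 : r.count 6 ≤ (r.filter (fun x => decide (¬ 7 ≤ x))).length := by
          rw [← List.countP_eq_length_filter]
          exact List.countP_mono_left (fun x _ hx => by
            have : x = 6 := by simpa using hx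
            subst this
            simp)
        have e7 : (r.filter (fun x => decide (¬ 7 ≤ x))).length ≤
            ((D1 :: 7 :: r).filter (fun x => decide (¬ 7 ≤ x))).length :=
          (List.Sublist.filter _ ((List.sublist_cons_self _ _).trans
            (List.sublist_cons_self _ _))).length_le
        omega
      have e8 : 10 ≤ r.length := hr.trans (List.length_filter_le _ _)
      have := seven (D1 := D1) (a := r.count 7) (n := r.count 6) hD1 e5 (by omega)
      rw [← e3] at this
      exact this
    · exact eight hls h8 h6' hr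

end Pool.Agent.Helper86.HC
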