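import Pool.Agent.Helper79.HH.Check

/-!
# Slots between arbitrary vertices

The slot step of `Helper79/HH/SlotStep.lean` raises the degrees of two vertices `D`, `b` with a
common neighbour `p` of degree five by five each.  Here we use it for a list of slots
`(D, b, p)` with different `D`, whose vertices `p` are pairwise not adjacent.
-/

namespace Pool.Agent.Helper86.HC

open Finset Pool.Agent.Helper79.HX Pool.Agent.Helper79.HG Pool.Agent.Helper79.HH

/-- A list of slots `(D, b, p)` which do not interfere. -/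
structure PSlots (T : Finset (Finset ℕ)) (l : List (ℕ × ℕ × ℕ)) : Prop where
  slot : ∀ x ∈ l, ∃ x1 x2 x3, Slot T x.1 x.2.1 x.2.2 x1 x2 x3
  pw : l.Pairwise (fun x y => x.2.2 ≠ y.1 ∧ x.2.2 ≠ y.2.1 ∧ y.2.2 ≠ x.1 ∧ y.2.2 ≠ x.2.1 ∧
    ∀ t ∈ T, ¬ (x.2.2 ∈ t ∧ y.2.2 ∈ t))

/-- how often the degree of `v` is raised by five, if the slot `(D, b, p)` is used `k p` times -/
def inc (k : ℕ → ℕ) (l : List (ℕ × ℕ × ℕ)) (v : ℕ) : ℕ :=
  (l.map (fun x => if v = x.1 ∨ v = x.2.1 then k x.2.2 else 0)).sum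

theorem inc_cons (k : ℕ → ℕ) (x : ℕ × ℕ × ℕ) (l : List (ℕ × ℕ × ℕ)) (v : ℕ) :
    inc k (x :: l) v = (if v = x.1 ∨ v = x.2.1 then k x.2.2 else 0) + inc k l v := by
  simp [inc]

theorem inc_eq_zero {k : ℕ → ℕ} {l : List (ℕ × ℕ × ℕ)} {v : ℕ}
    (h : ∀ x ∈ l, v ≠ x.1 ∧ v ≠ x.2.1) : inc k l v = 0 := by
  induction l with
  | nil => rfl
  | cons x l ih =>
    rw [inc_cons, ih (fun y hy => h y (List.mem_cons_of_mem _ hy)), if_neg]
    rintro (h1 | h1)
    · exact (h x List.mem_cons_self).1 h1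
    · exact (h x List.mem_cons_self).2 h1

private theorem slot_verts_86 {T : Finset (Finset ℕ)} {D b p x1 x2 x3 : ℕ}
    (h : Slot T D b p x1 x2 x3) : D ∈ verts T ∧ b ∈ verts T :=
  ⟨mem_verts.2 ⟨_, h.m1, by simp⟩, mem_verts.2 ⟨_, h.m2, by simp⟩⟩

theorem pslots_all (k : ℕ → ℕ) (l : List (ℕ × ℕ × ℕ)) : ∀ T : Finset (Finset ℕ), IsSphere T →
    PSlots T l → ∃ (T' : Finset (Finset ℕ)) (W : Finset ℕ), IsSphere T' ∧
      Disjoint W (verts T) ∧ verts T' = verts T ∪ W ∧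
      W.card = 10 * (l.map (fun x => k x.2.2)).sum ∧
      (∀ v ∈ W, deg T' v = 5) ∧
      (∀ v ∈ verts T, deg T' v = deg T v + 5 * inc k l v) ∧
      ∀ t ∈ T, (∀ x ∈ l, x.2.2 ∉ t) → t ∈ T' := by
  induction l with
  | nil =>
    intro T hS _
    refine ⟨T, ∅, hS, Finset.disjoint_empty_left _, by simp, by simp, by simp, ?_,
      fun t ht _ => ht⟩
    intro v _
    simp [inc]
  | cons x l ih =>
    intro T hS hl
    obtain ⟨x1, x2, x3, hx⟩ := hl.slot x List.mem_cons_self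
    obtain ⟨T1, W1, y2, y3, hS1, hd1, hv1, hc1, h51, hdeg1, ht1, -⟩ :=
      slot_steps hS hx (k x.2.2)
    have hpw := List.pairwise_cons.1 hl.pw
    have hsl : ∀ y ∈ l, ∃ y1 y2 y3, Slot T y.1 y.2.1 y.2.2 y1 y2 y3 :=
      fun y hy => hl.slot y (List.mem_cons_of_mem _ hy)
    have hkeep : ∀ y ∈ l, ∀ t ∈ T, y.2.2 ∈ t → t ∈ T1 := by
      intro y hy t ht hyt
      exact ht1 t ht fun hxt => (hpw.1 y hy).2.2.2.2 t ht ⟨hxt, hyt⟩
    have hvy : ∀ y ∈ l, y.2.2 ∈ verts T := by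
      intro y hy
      obtain ⟨y1, y2, y3, hs⟩ := hsl y hy
      exact mem_verts.2 ⟨_, hs.m1, by simp⟩
    have hdegy : ∀ y ∈ l, deg T1 y.2.2 = deg T y.2.2 := by
      intro y hy
      rw [hdeg1 _ (hvy y hy), if_neg, add_zero]
      rintro (h | h)
      · exact (hpw.1 y hy).2.2.1 h
      · exact (hpw.1 y hy).2.2.2.1 h
    have hsame : ∀ y ∈ l, ∀ t ∈ T1, y.2.2 ∈ t → t ∈ T := by
      intro y hy t ht hyt
      have h1 : T.filter (fun t => y.2.2 ∈ t) ⊆ T1.filter (fun t => y.2.2 ∈ t) := by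
        intro t ht
        rw [Finset.mem_filter] at ht ⊢
        exact ⟨hkeep y hy t ht.1 ht.2, ht.2⟩
      have h2 : T.filter (fun t => y.2.2 ∈ t) = T1.filter (fun t => y.2.2 ∈ t) :=
        Finset.eq_of_subset_of_card_le h1 (hdegy y hy).le
      have h3 : t ∈ T.filter (fun t => y.2.2 ∈ t) := by
        rw [h2, Finset.mem_filter]
        exact ⟨ht, hyt⟩
      exact (Finset.mem_filter.1 h3).1
    have hl1 : PSlots T1 l := by
      refine ⟨fun y hy => ?_, ?_⟩
      · obtain ⟨y1, y2, y3, hs⟩ := hsl y hy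
        refine ⟨y1, y2, y3, ⟨?_, ?_, ?_, ?_, ?_, ?_, hs.nd⟩⟩
        · rw [hdegy y hy, hs.dp]
        · exact hkeep y hy _ hs.m1 (by simp)
        · exact hkeep y hy _ hs.m2 (by simp)
        · exact hkeep y hy _ hs.m3 (by simp)
        · exact hkeep y hy _ hs.m4 (by simp)
        · exact hkeep y hy _ hs.m5 (by simp)
      · refine hpw.2.imp_of_mem ?_
        intro y z hy _ hyz
        refine ⟨hyz.1, hyz.2.1, hyz.2.2.1, hyz.2.2.2.1, fun t ht hh => ?_⟩
        exact hyz.2.2.2.2 t (hsame y hy t ht hh.1) hh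
    obtain ⟨T2, W2, hS2, hd2, hv2, hc2, h52, hdeg2, ht2⟩ := ih T1 hS1 hl1
    rw [hv1, Finset.disjoint_union_right] at hd2
    have hvl : ∀ y ∈ l, y.1 ∈ verts T ∧ y.2.1 ∈ verts T := by
      intro y hy
      obtain ⟨y1, y2, y3, hs⟩ := hsl y hy
      exact slot_verts_86 hs
    refine ⟨T2, W1 ∪ W2, hS2, Finset.disjoint_union_left.2 ⟨hd1, hd2.1⟩, ?_, ?_, ?_, ?_, ?_⟩
    · rw [hv2, hv1, Finset.union_assoc]
    · rw [Finset.card_union_of_disjoint hd2.2.symm, hc1, hc2, List.map_cons, List.sum_cons]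
      ring
    · intro v hv
      rcases Finset.mem_union.1 hv with hv | hv
      · have h1 : v ∈ verts T1 := by
          rw [hv1]
          exact Finset.mem_union_right _ hv
        have h2 : v ∉ verts T := Finset.disjoint_left.1 hd1 hv
        rw [hdeg2 v h1, h51 v hv, inc_eq_zero, mul_zero, add_zero]
        intro y hy
        exact ⟨fun h3 => h2 (h3 ▸ (hvl y hy).1), fun h3 => h2 (h3 ▸ (hvl y hy).2)⟩
      · exact h52 v hv
    · intro v hv
      have h1 : v ∈ verts T1 := by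
        rw [hv1]
        exact Finset.mem_union_left _ hv
      rw [hdeg2 v h1, hdeg1 v hv, inc_cons]
      split_ifs <;> ring
    · intro t ht hp
      exact ht2 t (ht1 t ht (hp x List.mem_cons_self)) fun y hy =>
        hp y (List.mem_cons_of_mem _ hy)

/-- the new sphere, with the multiset of its degrees -/
theorem pgrow {T : Finset (Finset ℕ)} {l : List (ℕ × ℕ × ℕ)} (hS : IsSphere T)
    (hl : PSlots T l) (hT : {0, 1, 2} ∈ T) (hp : ∀ x ∈ l, x.2.2 ∉ ({0, 1, 2} : Finset ℕ))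
    (k : ℕ → ℕ) :
    Conf (deg T 0 + 5 * inc k l 0) (deg T 1 + 5 * inc k l 1) (deg T 2 + 5 * inc k l 2)
      (Multiset.replicate (10 * (l.map (fun x => k x.2.2)).sum) 5 +
        (verts T \ {0, 1, 2}).val.map (fun v => deg T v + 5 * inc k l v)) := by
  obtain ⟨T', W, hS', hd, hv, hc, h5, hdeg, ht⟩ := pslots_all k l T hS hl
  have hmT : ({0, 1, 2} : Finset ℕ) ⊆ verts T := fun v hv => mem_verts.2 ⟨_, hT, hv⟩
  refine ⟨T', 0, 1, 2, hS', by norm_num, by norm_num, by norm_num, ht _ hT fun x hx => hp x hx,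
    hdeg 0 (hmT (by simp)), hdeg 1 (hmT (by simp)), hdeg 2 (hmT (by simp)), ?_⟩
  have hWA : Disjoint W (verts T \ {0, 1, 2}) :=
    hd.mono_right Finset.sdiff_subset
  have hU : verts T' \ {0, 1, 2} = W.disjUnion (verts T \ {0, 1, 2}) hWA := by
    rw [Finset.disjUnion_eq_union, hv]
    ext v
    simp only [Finset.mem_sdiff, Finset.mem_union]
    constructor
    · rintro ⟨h1 | h1, h2⟩
      · exact Or.inr ⟨h1, h2⟩
      · exact Or.inl h1
    · rintro (h1 | ⟨h1, h2⟩)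
      · exact ⟨Or.inr h1, fun h2 => Finset.disjoint_left.1 hd h1 (hmT h2)⟩
      · exact ⟨Or.inl h1, h2⟩
  rw [hU, Finset.disjUnion_val, Multiset.map_add]
  congr 1
  · rw [Multiset.eq_replicate]
    refine ⟨by rw [Multiset.card_map]; exact hc, fun b hb => ?_⟩
    obtain ⟨v, hv, rfl⟩ := Multiset.mem_map.1 hb
    exact h5 v hv
  · refine Multiset.map_congr rfl fun v hv => ?_
    exact hdeg v (Finset.mem_sdiff.1 hv).1

end Pool.Agent.Helper86.HC
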