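import Pool.Agent.Helper86.HC.Table
import Pool.Agent.Helper86.HC.F0

/-!
# Selection of the end pieces
-/

namespace Pool.Agent.Helper86.HC

open Finset Pool.Agent.Helper79.HX Pool.Agent.Helper79.HG Pool.Agent.Helper79.HH

theorem cvd_spec {P Z : List ℕ} (h : cvd P Z = true) : ∃ x ∈ TB, x.1.Sublist P ∧ x.2.Sublist Z := by
  obtain ⟨x, hx, h2⟩ := List.any_eq_true.1 h
  rw [Bool.and_eq_true, List.isSublist_iff_sublist, List.isSublist_iff_sublist] at h2
  exact ⟨x, hx, h2⟩

theorem chkZ_spec : ∀ (n : ℕ) (P Z : List ℕ) (m : ℕ), chkZ n P Z m = true → ∀ Z' : List ℕ,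
    Z'.length = n → (∀ z ∈ Z', z ∈ [6, 7, 8, 9] ∧ z ≤ m) → Z'.Pairwise (· ≥ ·) →
    ∃ x ∈ TB, x.1.Sublist P ∧ x.2.Sublist (Z ++ Z') := by
  intro n
  induction n with
  | zero =>
    intro P Z m h Z' hZ' _ _
    have : Z' = [] := List.length_eq_zero_iff.1 hZ'
    subst this
    rw [List.append_nil]
    exact cvd_spec h
  | succ n ih =>
    intro P Z m h Z' hZ' hm hs
    rw [chkZ, Bool.or_eq_true] at h
    rcases h with h | h
    · obtain ⟨x, hx, h1, h2⟩ := cvd_spec h
      exact ⟨x, hx, h1, h2.trans (List.sublist_append_left _ _)⟩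
    · cases Z' with
      | nil => simp at hZ'
      | cons z Z' =>
        obtain ⟨h1, h2⟩ := hm z (by simp)
        have h3 := List.all_eq_true.1 h z h1
        rw [Bool.or_eq_true] at h3
        rcases h3 with h3 | h3
        · rw [Nat.blt_eq] at h3
          omega
        · rw [List.pairwise_cons] at hs
          obtain ⟨x, hx, h4, h5⟩ := ih P (Z ++ [z]) z h3 Z' (by simpa using hZ')
            (fun y hy => ⟨(hm y (List.mem_cons_of_mem _ hy)).1, hs.1 y hy⟩) hs.2
          exact ⟨x, hx, h4, by simpa using h5⟩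

theorem chkP_spec : ∀ (n : ℕ) (P : List ℕ), chkP n P = true → ∀ P' Z' : List ℕ,
    P'.length + Z'.length = n → (∀ p ∈ P', p ∈ [11, 12, 13, 14]) → (∀ z ∈ Z', z ∈ [6, 7, 8, 9]) →
    Z'.Pairwise (· ≥ ·) → ∃ x ∈ TB, x.1.Sublist (P ++ P') ∧ x.2.Sublist Z' := by
  intro n
  induction n with
  | zero =>
    intro P h P' Z' hl _ _ _
    have h1 : P' = [] := List.length_eq_zero_iff.1 (by omega)
    have h2 : Z' = [] := List.length_eq_zero_iff.1 (by omega)
    subst h1 h2
    rw [List.append_nil]
    exact cvd_spec h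
  | succ n ih =>
    intro P h P' Z' hl hP hZ hs
    rw [chkP, Bool.or_eq_true] at h
    rcases h with h | h
    · obtain ⟨x, hx, h1, h2⟩ := cvd_spec h
      exact ⟨x, hx, h1.trans (List.sublist_append_left _ _), h2.trans (List.nil_sublist _)⟩
    · rw [Bool.and_eq_true] at h
      cases P' with
      | nil =>
        have h9 : ∀ z ∈ Z', z ∈ [6, 7, 8, 9] ∧ z ≤ 9 := by
          intro z hz
          refine ⟨hZ z hz, ?_⟩
          have := hZ z hz
          simp only [List.mem_cons, List.not_mem_nil, or_false] at this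
          omega
        obtain ⟨x, hx, h1, h2⟩ := chkZ_spec (n + 1) P [] 9 h.1 Z' (by simpa using hl) h9 hs
        exact ⟨x, hx, by simpa using h1, by simpa using h2⟩
      | cons p P' =>
        have h3 := List.all_eq_true.1 h.2 p (hP p (by simp))
        obtain ⟨x, hx, h4, h5⟩ := ih (P ++ [p]) h3 P' Z' (by simp at hl; omega)
          (fun y hy => hP y (List.mem_cons_of_mem _ hy)) hZ hs
        exact ⟨x, hx, by simpa using h4, h5⟩

def beta (c : ℕ) : ℕ := 11 + (c - 11) % 5

def tau (c : ℕ) : ℕ := (c - 11) / 5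

theorem up_beta : ∀ l : List ℕ, (∀ c ∈ l, 11 ≤ c) → up (l.map beta) (l.map tau) = l := by
  intro l
  induction l with
  | nil => intro _; rfl
  | cons c l ih =>
    intro h
    have h1 := h c (by simp)
    have h2 := ih (fun x hx => h x (List.mem_cons_of_mem _ hx))
    rw [List.map_cons, List.map_cons]
    show (beta c + 5 * tau c) :: up (l.map beta) (l.map tau) = _
    rw [h2]
    congr 1
    unfold beta tau
    omega

/-- **Five faces with at least six sides, sizes not divisible by five, contain an end piece.** -/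
theorem core_of_five {l : List ℕ} (hl : l.length = 5) (h6 : ∀ x ∈ l, 6 ≤ x ∧ ¬ 5 ∣ x)
    (hs : l.Pairwise (· ≥ ·)) {D : ℕ} (hD8 : 8 ≤ D) (hD : ∀ x ∈ l, x ≤ D) :
    ∃ u : Multiset ℕ, u ≤ (l : Multiset ℕ) ∧ ∃ g, 2 ≤ g ∧ g + 3 ≤ D ∧ CoreG g u 0 := by
  obtain ⟨l1, hl1⟩ : ∃ l1, l1 = l.filter (fun x => Nat.ble 11 x) := ⟨_, rfl⟩
  obtain ⟨l2, hl2⟩ : ∃ l2, l2 = l.filter (fun x => !(Nat.ble 11 x)) := ⟨_, rfl⟩
  have hp : (l1 ++ l2).Perm l := by
    rw [hl1, hl2]
    exact List.filter_append_perm (fun x => Nat.ble 11 x) l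
  have m1 : ∀ x ∈ l1, x ∈ l ∧ 11 ≤ x := by
    intro x hx
    rw [hl1, List.mem_filter] at hx
    exact ⟨hx.1, Nat.le_of_ble_eq_true hx.2⟩
  have m2 : ∀ x ∈ l2, x ∈ l ∧ x ≤ 10 := by
    intro x hx
    rw [hl2, List.mem_filter, Bool.not_eq_true', ← Bool.not_eq_true] at hx
    refine ⟨hx.1, ?_⟩
    by_contra hc
    exact hx.2 (Nat.ble_eq_true_of_le (by omega))
  have s1 : l1.Pairwise (· ≥ ·) := by rw [hl1]; exact hs.sublist List.filter_sublist
  have s2 : l2.Pairwise (· ≥ ·) := by rw [hl2]; exact hs.sublist List.filter_sublist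
  obtain ⟨x, hx, h1, h2⟩ := chkP_spec 5 [] chk5 (l1.map beta) l2
    (by rw [List.length_map, ← List.length_append, hp.length_eq, hl])
    (by
      intro p hp'
      obtain ⟨c, hc, rfl⟩ := List.mem_map.1 hp'
      have h3 := (h6 c (m1 c hc).1).2
      have h4 := (m1 c hc).2
      simp only [List.mem_cons, List.not_mem_nil, or_false, beta]
      omega)
    (by
      intro z hz
      have h3 := h6 z (m2 z hz).1
      have h4 := (m2 z hz).2
      simp only [List.mem_cons, List.not_mem_nil, or_false]
      omega) s2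
  rw [List.nil_append] at h1
  obtain ⟨l', hl', h3⟩ := List.sublist_map_iff.1 h1
  have hcov := TB_cov x hx
  have h11 : ∀ c ∈ l', 11 ≤ c := fun c hc => (m1 c (hl'.subset hc)).2
  have hu : up x.1 (l'.map tau) = l' := by rw [h3, up_beta l' h11]
  obtain ⟨g, g2, g3, g4⟩ := hcov (l'.map tau) (by rw [h3]; simp) (by
      rw [List.pairwise_map]
      refine (s1.sublist hl').imp ?_
      intro a b hab
      unfold tau
      exact Nat.div_le_div_right (by omega)) D hD8 (by
      rw [hu]
      intro y hy
      rcases List.mem_append.1 hy with hy | hy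
      · exact hD y (m1 y (hl'.subset hy)).1
      · exact hD y (m2 y (h2.subset hy)).1)
  rw [hu] at g4
  refine ⟨((l' ++ x.2 : List ℕ) : Multiset ℕ), ?_, g, g2, g3, g4⟩
  rw [← Multiset.coe_eq_coe.2 hp]
  exact Multiset.coe_le.2 (hl'.append h2).subperm

theorem core_static {N : ℕ} {L : List Tr} {Z : List ℕ} {g0 : ℕ}
    (h : ckP N L [] [] Z g0 = true) : CoreG g0 (Z : Multiset ℕ) 0 := by
  have h1 := path_core h [] rfl trivial
  simpa [alt] using h1

theorem good_of_six {X : Multiset ℕ} {n : ℕ} (h : Good (X + Multiset.replicate n 6) 0) :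
    Good X n := by
  obtain ⟨p, hp⟩ := h
  refine ⟨p, ?_⟩
  rw [Multiset.replicate_zero, add_zero, add_comm X, ← add_assoc] at hp
  exact hp

/-- the case of a second face with seven sides -/
theorem seven {D1 a n : ℕ} (h1 : 7 ≤ D1) (hn : n ≤ 5) (h : 10 ≤ a + n) :
    Good (D1 ::ₘ 7 ::ₘ (Multiset.replicate a 7 + Multiset.replicate n 6)) 0 := by
  have c1 := core_static s7a_ck
  have c2 := core_static s7b_ck
  rcases Nat.lt_or_ge n 2 with h2 | h2
  · rcases Nat.eq_zero_or_pos n with h3 | h3
    · have h4 := two (D1 := D1) (D2 := 7) (k := 0) (L := Multiset.replicate (a - 10) 7) c1 c1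
        (by norm_num) (by omega) (by norm_num) (by
          intro c hc
          rw [Multiset.eq_of_mem_replicate hc]
          norm_num)
      refine h4.congr ?_ rfl
      congr 2
      ext j
      simp only [Multiset.count_add, Multiset.count_replicate, Multiset.coe_count,
        List.count_cons, List.count_nil]
      split_ifs <;> simp_all <;> omega
    · have h4 := two (D1 := D1) (D2 := 7) (k := 0) (L := Multiset.replicate (a - 7) 7) c1 c2
        (by norm_num) (by omega) (by norm_num) (by
          intro c hc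
          rw [Multiset.eq_of_mem_replicate hc]
          norm_num)
      refine h4.congr ?_ rfl
      congr 2
      ext j
      simp only [Multiset.count_add, Multiset.count_replicate, Multiset.coe_count,
        List.count_cons, List.count_nil]
      split_ifs <;> simp_all <;> omega
  · have h4 := two (D1 := D1) (D2 := 7) (k := 0)
      (L := Multiset.replicate (a - 4) 7 + Multiset.replicate (n - 2) 6) c2 c2
      (by norm_num) (by omega) (by norm_num) (by
        intro c hc
        rcases Multiset.mem_add.1 hc with hc | hc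
        · rw [Multiset.eq_of_mem_replicate hc]
          norm_num
        · rw [Multiset.eq_of_mem_replicate hc])
    refine h4.congr ?_ rfl
    congr 2
    ext j
    simp only [Multiset.count_add, Multiset.count_replicate, Multiset.coe_count,
      List.count_cons, List.count_nil]
    split_ifs <;> simp_all <;> omega

end Pool.Agent.Helper86.HC
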