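import Pool.Agent.Helper86.HC.E0
import Pool.Agent.Helper86.HC.E1
import Pool.Agent.Helper86.HC.E2
import Pool.Agent.Helper86.HC.E3
import Pool.Agent.Helper86.HC.E4
import Pool.Agent.Helper86.HC.E5

/-!
# The table of covered words
-/

namespace Pool.Agent.Helper86.HC

/-- the table -/
def TB : List (List ℕ × List ℕ) :=
  [([], [7, 6]), ([], [9, 7]), ([11, 13], []), ([12], [9]), ([12, 14], []), ([13], [6]),
   ([13, 11], []), ([14], [7]), ([14, 12], []), ([], [8, 6, 6]), ([], [8, 7, 7]),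
   ([], [8, 8, 6]), ([], [8, 8, 7]), ([], [9, 6, 6]), ([], [9, 9, 8]), ([11], [8, 8]),
   ([11], [9, 6]), ([11, 11], [7]), ([11, 11], [8]), ([11, 12], [6]), ([11, 14], [6]),
   ([11, 14, 11], []), ([12, 12], [8]), ([12, 12, 12], []), ([13], [8, 7]), ([13], [9, 9]),
   ([13, 13], [7]), ([13, 13, 13], []), ([13, 14], [9]), ([14], [9, 8]), ([14, 14], [8]),
   ([14, 14, 13], []), ([], [7, 7, 7, 7]), ([], [8, 8, 8, 8]), ([], [9, 6, 6, 6]),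
   ([], [9, 9, 8, 8]), ([], [9, 9, 9, 6]), ([11], [9, 6, 6]), ([11], [9, 9, 9]),
   ([11, 11], [7, 6]), ([11, 11], [9, 6]), ([11, 11, 11], [9]), ([11, 11, 11, 12], []),
   ([11, 11, 11, 14], []), ([11, 11, 12, 11], []), ([11, 14], [9, 9]), ([11, 14, 14], [9]),
   ([11, 14, 14, 14], []), ([12], [6, 6, 6]), ([12], [7, 7, 7]), ([12, 11], [6, 6]),
   ([12, 11, 11, 11], []), ([12, 12], [6, 6]), ([12, 12], [7, 7]), ([12, 12, 11, 11], []),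
   ([12, 12, 12], [7]), ([13], [8, 8, 8]), ([13, 13], [8, 8]), ([13, 13, 13], [8]),
   ([13, 14], [9, 9]), ([13, 14, 14, 14], []), ([14], [6, 6, 6]), ([14], [9, 8, 8]),
   ([14], [9, 9, 6]), ([14, 11], [6, 6]), ([14, 11], [9, 9]), ([14, 11, 11], [6]),
   ([14, 11, 11, 11], []), ([14, 11, 14], [9]), ([14, 11, 14, 14], []), ([14, 13], [9, 8]),
   ([14, 13, 13], [9]), ([14, 13, 13, 14], []), ([14, 14], [9, 6]), ([14, 14, 11], [9]),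
   ([14, 14, 11, 14], []), ([14, 14, 14], [6]), ([14, 14, 14, 11], []), ([], [6, 6, 6, 6, 6]),
   ([], [9, 9, 9, 9, 9]), ([11], [6, 6, 6, 6]), ([11, 11], [6, 6, 6]), ([11, 11, 11], [6, 6]),
   ([11, 11, 11, 11], [6]), ([11, 11, 11, 11, 11], []), ([14], [9, 9, 9, 9]),
   ([14, 14], [9, 9, 9]), ([14, 14, 14], [9, 9]), ([14, 14, 14, 14], [9]),
   ([14, 14, 14, 14, 14], [])]

theorem TB_cov : ∀ x ∈ TB, CovS x.1 x.2 := by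
  refine List.forall_mem_cons.2 ⟨c_O_ba, ?_⟩
  refine List.forall_mem_cons.2 ⟨c_O_db, ?_⟩
  refine List.forall_mem_cons.2 ⟨c_AC_O, ?_⟩
  refine List.forall_mem_cons.2 ⟨c_B_d, ?_⟩
  refine List.forall_mem_cons.2 ⟨c_BD_O, ?_⟩
  refine List.forall_mem_cons.2 ⟨c_C_a, ?_⟩
  refine List.forall_mem_cons.2 ⟨c_CA_O, ?_⟩
  refine List.forall_mem_cons.2 ⟨c_D_b, ?_⟩
  refine List.forall_mem_cons.2 ⟨c_DB_O, ?_⟩
  refine List.forall_mem_cons.2 ⟨c_O_caa, ?_⟩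
  refine List.forall_mem_cons.2 ⟨c_O_cbb, ?_⟩
  refine List.forall_mem_cons.2 ⟨c_O_cca, ?_⟩
  refine List.forall_mem_cons.2 ⟨c_O_ccb, ?_⟩
  refine List.forall_mem_cons.2 ⟨c_O_daa, ?_⟩
  refine List.forall_mem_cons.2 ⟨c_O_ddc, ?_⟩
  refine List.forall_mem_cons.2 ⟨c_A_cc, ?_⟩
  refine List.forall_mem_cons.2 ⟨c_A_da, ?_⟩
  refine List.forall_mem_cons.2 ⟨c_AA_b, ?_⟩
  refine List.forall_mem_cons.2 ⟨c_AA_c, ?_⟩
  refine List.forall_mem_cons.2 ⟨c_AB_a, ?_⟩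
  refine List.forall_mem_cons.2 ⟨c_AD_a, ?_⟩
  refine List.forall_mem_cons.2 ⟨c_ADA_O, ?_⟩
  refine List.forall_mem_cons.2 ⟨c_BB_c, ?_⟩
  refine List.forall_mem_cons.2 ⟨c_BBB_O, ?_⟩
  refine List.forall_mem_cons.2 ⟨c_C_cb, ?_⟩
  refine List.forall_mem_cons.2 ⟨c_C_dd, ?_⟩
  refine List.forall_mem_cons.2 ⟨c_CC_b, ?_⟩
  refine List.forall_mem_cons.2 ⟨c_CCC_O, ?_⟩
  refine List.forall_mem_cons.2 ⟨c_CD_d, ?_⟩
  refine List.forall_mem_cons.2 ⟨c_D_dc, ?_⟩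
  refine List.forall_mem_cons.2 ⟨c_DD_c, ?_⟩
  refine List.forall_mem_cons.2 ⟨c_DDC_O, ?_⟩
  refine List.forall_mem_cons.2 ⟨c_O_bbbb, ?_⟩
  refine List.forall_mem_cons.2 ⟨c_O_cccc, ?_⟩
  refine List.forall_mem_cons.2 ⟨c_O_daaa, ?_⟩
  refine List.forall_mem_cons.2 ⟨c_O_ddcc, ?_⟩
  refine List.forall_mem_cons.2 ⟨c_O_ddda, ?_⟩
  refine List.forall_mem_cons.2 ⟨c_A_daa, ?_⟩
  refine List.forall_mem_cons.2 ⟨c_A_ddd, ?_⟩
  refine List.forall_mem_cons.2 ⟨c_AA_ba, ?_⟩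
  refine List.forall_mem_cons.2 ⟨c_AA_da, ?_⟩
  refine List.forall_mem_cons.2 ⟨c_AAA_d, ?_⟩
  refine List.forall_mem_cons.2 ⟨c_AAAB_O, ?_⟩
  refine List.forall_mem_cons.2 ⟨c_AAAD_O, ?_⟩
  refine List.forall_mem_cons.2 ⟨c_AABA_O, ?_⟩
  refine List.forall_mem_cons.2 ⟨c_AD_dd, ?_⟩
  refine List.forall_mem_cons.2 ⟨c_ADD_d, ?_⟩
  refine List.forall_mem_cons.2 ⟨c_ADDD_O, ?_⟩
  refine List.forall_mem_cons.2 ⟨c_B_aaa, ?_⟩
  refine List.forall_mem_cons.2 ⟨c_B_bbb, ?_⟩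
  refine List.forall_mem_cons.2 ⟨c_BA_aa, ?_⟩
  refine List.forall_mem_cons.2 ⟨c_BAAA_O, ?_⟩
  refine List.forall_mem_cons.2 ⟨c_BB_aa, ?_⟩
  refine List.forall_mem_cons.2 ⟨c_BB_bb, ?_⟩
  refine List.forall_mem_cons.2 ⟨c_BBAA_O, ?_⟩
  refine List.forall_mem_cons.2 ⟨c_BBB_b, ?_⟩
  refine List.forall_mem_cons.2 ⟨c_C_ccc, ?_⟩
  refine List.forall_mem_cons.2 ⟨c_CC_cc, ?_⟩
  refine List.forall_mem_cons.2 ⟨c_CCC_c, ?_⟩
  refine List.forall_mem_cons.2 ⟨c_CD_dd, ?_⟩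
  refine List.forall_mem_cons.2 ⟨c_CDDD_O, ?_⟩
  refine List.forall_mem_cons.2 ⟨c_D_aaa, ?_⟩
  refine List.forall_mem_cons.2 ⟨c_D_dcc, ?_⟩
  refine List.forall_mem_cons.2 ⟨c_D_dda, ?_⟩
  refine List.forall_mem_cons.2 ⟨c_DA_aa, ?_⟩
  refine List.forall_mem_cons.2 ⟨c_DA_dd, ?_⟩
  refine List.forall_mem_cons.2 ⟨c_DAA_a, ?_⟩
  refine List.forall_mem_cons.2 ⟨c_DAAA_O, ?_⟩
  refine List.forall_mem_cons.2 ⟨c_DAD_d, ?_⟩
  refine List.forall_mem_cons.2 ⟨c_DADD_O, ?_⟩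
  refine List.forall_mem_cons.2 ⟨c_DC_dc, ?_⟩
  refine List.forall_mem_cons.2 ⟨c_DCC_d, ?_⟩
  refine List.forall_mem_cons.2 ⟨c_DCCD_O, ?_⟩
  refine List.forall_mem_cons.2 ⟨c_DD_da, ?_⟩
  refine List.forall_mem_cons.2 ⟨c_DDA_d, ?_⟩
  refine List.forall_mem_cons.2 ⟨c_DDAD_O, ?_⟩
  refine List.forall_mem_cons.2 ⟨c_DDD_a, ?_⟩
  refine List.forall_mem_cons.2 ⟨c_DDDA_O, ?_⟩
  refine List.forall_mem_cons.2 ⟨c_O_aaaaa, ?_⟩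
  refine List.forall_mem_cons.2 ⟨c_O_ddddd, ?_⟩
  refine List.forall_mem_cons.2 ⟨c_A_aaaa, ?_⟩
  refine List.forall_mem_cons.2 ⟨c_AA_aaa, ?_⟩
  refine List.forall_mem_cons.2 ⟨c_AAA_aa, ?_⟩
  refine List.forall_mem_cons.2 ⟨c_AAAA_a, ?_⟩
  refine List.forall_mem_cons.2 ⟨c_AAAAA_O, ?_⟩
  refine List.forall_mem_cons.2 ⟨c_D_dddd, ?_⟩
  refine List.forall_mem_cons.2 ⟨c_DD_ddd, ?_⟩
  refine List.forall_mem_cons.2 ⟨c_DDD_dd, ?_⟩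
  refine List.forall_mem_cons.2 ⟨c_DDDD_d, ?_⟩
  refine List.forall_mem_cons.2 ⟨c_DDDDD_O, ?_⟩
  intro x hx
  cases hx

/-- some pair of the table is contained in `(P, Z)` -/
def cvd (P Z : List ℕ) : Bool := TB.any (fun x => x.1.isSublist P && x.2.isSublist Z)

def chkZ : ℕ → List ℕ → List ℕ → ℕ → Bool
  | 0, P, Z, _ => cvd P Z
  | n + 1, P, Z, m => cvd P Z ||
      [6, 7, 8, 9].all (fun z => Nat.blt m z || chkZ n P (Z ++ [z]) z)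

def chkP : ℕ → List ℕ → Bool
  | 0, P => cvd P []
  | n + 1, P => cvd P [] ||
      (chkZ (n + 1) P [] 9 && [11, 12, 13, 14].all (fun p => chkP n (P ++ [p])))

theorem chk5 : chkP 5 [] = true := by decide +kernel

end Pool.Agent.Helper86.HC
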